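import Pool.Agent.H423.SN.Tup

set_option autoImplicit false

namespace Pool.Agent.H423.SN

open Finset

/-- the logarithm of the size -/
noncomputable def LH {n : ℕ} (x : Fin n → ℤ) : ℝ := Real.log (sz x)

/-- the logarithm of the radical -/
noncomputable def LR {n : ℕ} (x : Fin n → ℤ) : ℝ := Real.log (rd x)

/-- limit points of the exponents -/
def IsLim (n : ℕ) (lam : ℝ) : Prop :=
  ∀ ε : ℝ, 0 < ε → ∀ N : ℝ, ∃ x : Fin n → ℤ, Adm x ∧ N < sz x ∧ |LH x / LR x - lam| < ε

theorem LR_nonneg {n : ℕ} (x : Fin n → ℤ) : 0 ≤ LR x :=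
  Real.log_nonneg (by exact_mod_cast rd_pos x)

theorem ratio {lam C ε : ℝ} (hl : 0 < lam) (hC : 0 ≤ C) (hε : 0 < ε) : ∃ H : ℝ, ∀ h : ℝ, H ≤ h →
    ∀ u v : ℝ, |u - h| ≤ C → |v - h / lam| ≤ C → |u / v - lam| < ε := by
  refine ⟨lam * (C + (C + lam * C) / ε + 1), fun h hh u v hu hv => ?_⟩
  have h1 : C + (C + lam * C) / ε + 1 ≤ h / lam := by
    rw [le_div_iff₀ hl]; linarith
  have h2 := abs_le.1 hv
  have h3 : (C + lam * C) / ε + 1 ≤ v := by linarith
  have h4 : 0 ≤ (C + lam * C) / ε := by positivity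
  have hv0 : 0 < v := by linarith
  have e : u / v - lam = (u - lam * v) / v := by field_simp
  rw [e, abs_div, abs_of_pos hv0, div_lt_iff₀ hv0]
  have h5 : |u - lam * v| ≤ C + lam * C := by
    have e2 : u - lam * v = (u - h) - lam * (v - h / lam) := by field_simp; ring
    rw [e2]
    refine (abs_sub _ _).trans ?_
    rw [abs_mul, abs_of_pos hl]
    have := mul_le_mul_of_nonneg_left hv hl.le
    linarith
  have h6 : C + lam * C < ε * v := by
    have h7 : (C + lam * C) / ε < v := by linarith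
    rw [div_lt_iff₀ hε] at h7
    linarith
  linarith

theorem lim_closed {n : ℕ} {lam : ℝ}
    (h : ∀ δ : ℝ, 0 < δ → ∃ l : ℝ, |l - lam| < δ ∧ IsLim n l) : IsLim n lam := by
  intro ε hε N
  obtain ⟨l, h1, h2⟩ := h (ε / 2) (by linarith)
  obtain ⟨x, hx, hN, h3⟩ := h2 (ε / 2) (by linarith) N
  refine ⟨x, hx, hN, ?_⟩
  have e : LH x / LR x - lam = (LH x / LR x - l) + (l - lam) := by ring
  rw [e]
  exact (abs_add_le _ _).trans_lt (by linarith)

/-- families with a fixed sum and large exponents -/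
def Fam (m : ℕ) (s : ℤ) (q : ℝ) : Prop :=
  ∀ N : ℝ, ∃ F : Fin m → ℤ, PC F ∧ ∑ i, F i = s ∧ ((2 : ℤ) ∣ ∏ i, F i → (2 : ℤ) ∣ s) ∧
    N < LH F ∧ q * LR F ≤ LH F

theorem high {m : ℕ} {s : ℤ} {q : ℝ} (hs : s ≠ 0) (hfam : Fam m s q) {lam : ℝ}
    (h1 : 1 / 2 ≤ lam) (h2 : lam < q) : IsLim (m + 2) lam := by
  intro ε hε N
  have hlam : 0 < lam := by linarith
  have hq : 0 < q := by linarith
  set c : ℝ := (1 / lam - 1 / q) / 2 with hc
  have hc0 : 0 < c := by
    have : 1 / q < 1 / lam := one_div_lt_one_div_of_lt hlam h2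
    rw [hc]; linarith
  obtain ⟨H, hH⟩ := ratio (C := 20) hlam (by norm_num) hε
  set K : ℕ := max s.natAbs ⌈(m : ℝ) / c⌉₊ with hK
  obtain ⟨A₀, hA₀⟩ := step K
  obtain ⟨F, hF, hsum, hpar, hFN, hFq⟩ := hfam (max (max H (max N 0)) (max
    ((A₀ : ℝ) / c) ((2 * (s.natAbs : ℝ) + 2) / c)))
  set h := LH F with hh
  set r := LR F with hr
  have hr0 : 0 ≤ r := LR_nonneg F
  have hHh : H ≤ h := ((le_max_left _ _).trans (le_max_left _ _)).trans hFN.le
  have hNh : N < h := (((le_max_left _ _).trans (le_max_right _ _)).trans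
    (le_max_left _ _)).trans_lt hFN
  have h0h : 0 < h := (((le_max_right _ _).trans (le_max_right _ _)).trans
    (le_max_left _ _)).trans_lt hFN
  have hAh : (A₀ : ℝ) < c * h := by
    have := ((le_max_left _ _).trans (le_max_right _ _)).trans_lt hFN
    rw [div_lt_iff₀ hc0] at this
    linarith
  have hSh : 2 * (s.natAbs : ℝ) + 2 < c * h := by
    have := ((le_max_right _ _).trans (le_max_right _ _)).trans_lt hFN
    rw [div_lt_iff₀ hc0] at this
    linarith
  set α : ℝ := (h / lam - r) / 2 with hα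
  have hα1 : c * h ≤ α := by
    have : r ≤ h / q := by rw [le_div_iff₀ hq]; linarith
    rw [hα, hc]
    have e : (1 / lam - 1 / q) / 2 * h = (h / lam - h / q) / 2 := by ring
    rw [e]; linarith
  have hα2 : α ≤ h := by
    have h3 : h / lam ≤ 2 * h := by
      rw [div_le_iff₀ hlam]
      nlinarith
    rw [hα]; linarith
  have hα0 : 0 < α := lt_of_lt_of_le (mul_pos hc0 h0h) hα1
  set A : ℕ := ⌈Real.exp α⌉₊ with hA
  have hA1 : Real.exp α ≤ A := Nat.le_ceil _
  have hA2 : (A : ℝ) ≤ 2 * Real.exp α := by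
    have h3 : (A : ℝ) < Real.exp α + 1 := Nat.ceil_lt_add_one (Real.exp_pos _).le
    have h4 : 1 ≤ Real.exp α := Real.one_le_exp hα0.le
    linarith
  have hexp : α + 1 ≤ Real.exp α := Real.add_one_le_exp α
  have hAbig : (A₀ : ℝ) ≤ A := by linarith
  have hAn : A₀ ≤ A := by exact_mod_cast hAbig
  have hSA : 2 * (s.natAbs : ℝ) + 2 ≤ A := by linarith
  have hSAn : 2 * s.natAbs + 2 ≤ A := by exact_mod_cast hSA
  have hA1' : 1 ≤ A := by omega
  have hszF : 0 < sz F := by
    by_contra hcon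
    have : sz F = 0 := by omega
    rw [hh, LH, this] at h0h
    simp at h0h
  have hsK : (∑ i, F i).natAbs ≤ K * A := by
    rw [hsum]
    calc s.natAbs ≤ K := le_max_left _ _
      _ ≤ K * A := Nat.le_mul_of_pos_right _ (by omega)
  have hPK : (∏ i, F i).natAbs ≤ A ^ K := by
    have h3 : ((sz F ^ m : ℕ) : ℝ) ≤ (A : ℝ) ^ K := by
      push_cast
      have h4 : (sz F : ℝ) = Real.exp h := by
        rw [hh, LH, Real.exp_log (by exact_mod_cast hszF)]
      rw [h4, ← Real.exp_nat_mul]
      have h5 : (m : ℝ) * h ≤ K * α := by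
        have h6 : (m : ℝ) / c ≤ K := (Nat.le_ceil _).trans (by exact_mod_cast le_max_right _ _)
        rw [div_le_iff₀ hc0] at h6
        calc (m : ℝ) * h ≤ (K * c) * h := mul_le_mul_of_nonneg_right h6 h0h.le
          _ = K * (c * h) := by ring
          _ ≤ K * α := mul_le_mul_of_nonneg_left hα1 (Nat.cast_nonneg _)
      calc Real.exp ((m : ℝ) * h) ≤ Real.exp (K * α) := Real.exp_le_exp.2 h5
        _ = Real.exp α ^ K := by rw [Real.exp_nat_mul]
        _ ≤ (A : ℝ) ^ K := pow_le_pow_left₀ (Real.exp_pos _).le hA1 K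
    have h4 := prod_le F
    have h5 : sz F ^ m ≤ A ^ K := by exact_mod_cast h3
    omega
  obtain ⟨x, a, hx, ha1, ha2, hrd, hsz⟩ := hA₀ A hAn m F hF (by rw [hsum]; exact hs) hsK hPK
    (by rw [hsum]; exact hpar)
  rw [hsum] at hrd hsz
  set b : ℕ := ((a : ℤ) + s).natAbs with hb
  have hb1 : A ≤ 2 * b := by omega
  have hb2 : b ≤ 4 * A := by omega
  have hl2 : Real.log 2 ≤ 1 := by have := Real.log_two_lt_d9; linarith
  have hl20 : 0 ≤ Real.log 2 := Real.log_nonneg (by norm_num)
  have hA0 : (0 : ℝ) < A := by exact_mod_cast hA1'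
  have hlA1 : α ≤ Real.log A := by
    rw [Real.le_log_iff_exp_le hA0]; exact hA1
  have hlA2 : Real.log A ≤ α + 1 := by
    have := Real.log_le_log hA0 hA2
    rw [Real.log_mul (by norm_num) (Real.exp_pos _).ne', Real.log_exp] at this
    linarith
  have hl4 : Real.log 4 ≤ 2 := by
    have : Real.log 4 = 2 * Real.log 2 := by
      rw [show (4 : ℝ) = 2 ^ 2 by norm_num, Real.log_pow]; norm_num
    linarith
  have ha0 : (0 : ℝ) < a := by
    have : 0 < a := by omega
    exact_mod_cast this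
  have hbn : 0 < b := by omega
  have hb0 : (0 : ℝ) < b := by exact_mod_cast hbn
  have hla1 : Real.log A ≤ Real.log a := Real.log_le_log hA0 (by exact_mod_cast ha1.le)
  have hla2 : Real.log a ≤ Real.log A + 2 := by
    have h3 : (a : ℝ) ≤ 4 * A := by
      have : a ≤ 4 * A := by omega
      exact_mod_cast this
    have := Real.log_le_log ha0 h3
    rw [Real.log_mul (by norm_num) hA0.ne'] at this
    linarith
  have hlb2 : Real.log b ≤ Real.log A + 2 := by
    have h3 : (b : ℝ) ≤ 4 * A := by exact_mod_cast hb2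
    have := Real.log_le_log hb0 h3
    rw [Real.log_mul (by norm_num) hA0.ne'] at this
    linarith
  have hlb1 : Real.log A - 1 ≤ Real.log b := by
    have h3 : (A : ℝ) ≤ 2 * b := by exact_mod_cast hb1
    have := Real.log_le_log hA0 h3
    rw [Real.log_mul (by norm_num) hb0.ne'] at this
    linarith
  have hLR : LR x = Real.log a + Real.log b + r := by
    have h3 : (0 : ℝ) < rd F := by exact_mod_cast rd_pos F
    unfold LR
    rw [hrd]
    push_cast
    rw [Real.log_mul (by positivity) h3.ne', Real.log_mul ha0.ne' hb0.ne']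
    rfl
  have hszx : sz F ≤ sz x := by
    rw [hsz]; exact (le_max_right _ _).trans (le_max_right _ _)
  have hLH1 : h ≤ LH x := Real.log_le_log (by exact_mod_cast hszF) (by exact_mod_cast hszx)
  have hszx0 : (0 : ℝ) < sz x := by exact_mod_cast hszF.trans_le hszx
  have hLH2 : LH x ≤ h + 3 := by
    rcases le_total (sz F) (4 * A) with h3 | h3
    · have h4 : sz x ≤ 4 * A := by
        rw [hsz]
        exact max_le (by omega) (max_le hb2 h3)
      have h5 : LH x ≤ Real.log (4 * A) := Real.log_le_log hszx0 (by exact_mod_cast h4)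
      rw [Real.log_mul (by norm_num) hA0.ne'] at h5
      linarith
    · have h4 : sz x ≤ sz F := by
        rw [hsz]
        exact max_le (by omega) (max_le (by omega) le_rfl)
      have h5 : LH x ≤ h := Real.log_le_log hszx0 (by exact_mod_cast h4)
      linarith
  refine ⟨x, hx, ?_, ?_⟩
  · have h3 : h < sz x := by
      have h4 : LH x < sz x := by
        have := Real.add_one_le_exp (LH x)
        rw [LH, Real.exp_log hszx0] at this
        unfold LH
        linarith
      linarith
    linarith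
  · refine hH h hHh _ _ ?_ ?_
    · rw [abs_le]; constructor <;> linarith
    · rw [hLR, abs_le]
      have e : h / lam = 2 * α + r := by rw [hα]; ring
      rw [e]
      constructor <;> linarith

/-- large exponents and all smaller ones down to `1 / 2` -/
theorem high' {m : ℕ} {s : ℤ} {q : ℝ} (hs : s ≠ 0) (hfam : ∀ q' : ℝ, q' < q → Fam m s q')
    {lam : ℝ} (h1 : 1 / 2 ≤ lam) (h2 : lam ≤ q) (h3 : 1 / 2 < q) : IsLim (m + 2) lam := by
  rcases lt_or_eq_of_le h2 with h | h
  · exact high hs (hfam ((lam + q) / 2) (by linarith)) h1 (by linarith)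
  · refine lim_closed fun δ hδ => ?_
    set l := max (1 / 2) (lam - δ / 2) with hl
    have hl1 : l < q := max_lt h3 (by linarith)
    refine ⟨l, ?_, high hs (hfam ((l + q) / 2) (by linarith)) (le_max_left _ _) (by linarith)⟩
    have h4 : lam - δ / 2 ≤ l := le_max_right _ _
    rw [abs_lt]
    constructor <;> linarith

end Pool.Agent.H423.SN
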