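import Pool.Agent.H423.SN.Sieve

set_option autoImplicit false

namespace Pool.Agent.H423.SN

open Finset

/-- the number of `j` with `m ∣ a₀ + Q j + t` -/
theorem card_dvd (J m a₀ Q : ℕ) (t : ℤ) (hm : 0 < m) (hc : Nat.Coprime m Q) :
    (((Ico J (2 * J)).filter fun j : ℕ => (m : ℤ) ∣ ((a₀ + Q * j : ℕ) : ℤ) + t).card : ℝ) ≤
      (J : ℝ) / m + 2 := by
  refine card_prog J m hm _ fun j j' h h' => ?_
  have h1 := dvd_sub h' h
  have h2 : (m : ℤ) ∣ (Q : ℤ) * ((j' : ℤ) - j) := by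
    have e : (Q : ℤ) * ((j' : ℤ) - j) = ((a₀ + Q * j' : ℕ) : ℤ) + t - (((a₀ + Q * j : ℕ) : ℤ) + t) := by
      push_cast; ring
    rwa [e]
  have h3 : IsCoprime (m : ℤ) (Q : ℤ) := Nat.isCoprime_iff_coprime.2 hc
  have h4 : (m : ℤ) ∣ (j' : ℤ) - j := h3.dvd_of_dvd_mul_left h2
  exact Nat.modEq_iff_dvd.2 h4

theorem sum_sq (w D : ℕ) (hw : 1 ≤ w) (J : ℝ) (hJ : 0 ≤ J) :
    ∑ d ∈ Ioc w D, (J / ((d ^ 2 : ℕ) : ℝ) + 2) ≤ J / w + 2 * D := by
  rw [sum_add_distrib]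
  have h1 : ∑ d ∈ Ioc w D, J / ((d ^ 2 : ℕ) : ℝ) ≤ J / w := by
    by_cases h : w ≤ D
    · have h2 := sum_Ioc_inv_sq_le_sub (α := ℝ) (k := w) (n := D) (by omega) h
      have h3 : (0 : ℝ) ≤ ((D : ℝ))⁻¹ := by positivity
      have e : ∑ d ∈ Ioc w D, J / ((d ^ 2 : ℕ) : ℝ) = J * ∑ d ∈ Ioc w D, ((d : ℝ) ^ 2)⁻¹ := by
        rw [mul_sum]
        refine sum_congr rfl fun d _ => ?_
        push_cast
        rw [div_eq_mul_inv]
      rw [e, div_eq_mul_inv]
      exact mul_le_mul_of_nonneg_left (by linarith) hJ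
    · rw [Ioc_eq_empty (by omega), sum_empty]
      positivity
  have h2 : ∑ _d ∈ Ioc w D, (2 : ℝ) ≤ 2 * D := by
    rw [sum_const, Nat.card_Ioc, nsmul_eq_mul]
    have : ((D - w : ℕ) : ℝ) ≤ D := by exact_mod_cast Nat.sub_le _ _
    linarith
  linarith

/-- existence, from the numerical inequality -/
theorem exists_of_lt {w a₀ J D P : ℕ} {s : ℤ} (hw : 2 ≤ w) (hP : 0 < P) (hs : s ≠ 0)
    (hpar : 2 ∣ P → (2 : ℤ) ∣ s)
    (hcl : ∀ a : ℕ, a ≡ a₀ [MOD QQ w] →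
      (∀ p : ℕ, p.Prime → p ≤ w → ¬ p ∣ a) ∧
      (∀ p : ℕ, p.Prime → p ≤ w → p ≠ 2 → ¬ (p : ℤ) ∣ (a : ℤ) + s) ∧
      ¬ (4 : ℤ) ∣ (a : ℤ) + s ∧ ((2 : ℤ) ∣ s → ¬ (2 : ℤ) ∣ (a : ℤ) + s))
    (hD1 : ∀ j ∈ Ico J (2 * J), a₀ + QQ w * j < D ^ 2)
    (hD2 : ∀ j ∈ Ico J (2 * J), (((a₀ + QQ w * j : ℕ) : ℤ) + s).natAbs < D ^ 2)
    (hlt : 2 * ((((P * s.natAbs).primeFactors.filter fun p => w < p).card : ℝ) * ((J : ℝ) / w + 2)) +
      2 * ((J : ℝ) / w + 2 * D) < J) :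
    ∃ j ∈ Ico J (2 * J), Squarefree (a₀ + QQ w * j) ∧
      Squarefree (((a₀ + QQ w * j : ℕ) : ℤ) + s).natAbs ∧
      (a₀ + QQ w * j).Coprime P ∧ (((a₀ + QQ w * j : ℕ) : ℤ) + s).natAbs.Coprime P ∧
      (a₀ + QQ w * j).Coprime s.natAbs := by
  classical
  set S := (P * s.natAbs).primeFactors.filter fun p => w < p with hS
  let F : ℕ → ℤ → Finset ℕ := fun m t =>
    (Ico J (2 * J)).filter fun j : ℕ => (m : ℤ) ∣ ((a₀ + QQ w * j : ℕ) : ℤ) + t
  let T := (Ioc w D).filter Nat.Prime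
  let B := (S.biUnion fun p => F p 0) ∪ (S.biUnion fun p => F p s) ∪
    ((T.biUnion fun p => F (p ^ 2) 0) ∪ (T.biUnion fun p => F (p ^ 2) s))
  have hN : P * s.natAbs ≠ 0 := mul_ne_zero hP.ne' (Int.natAbs_ne_zero.2 hs)
  have hw0 : (0 : ℝ) < w := by exact_mod_cast (by omega : 0 < w)
  have hJ0 : (0 : ℝ) ≤ J := Nat.cast_nonneg J
  have hSb : ∀ t : ℤ, (((S.biUnion fun p => F p t).card : ℕ) : ℝ) ≤ S.card * ((J : ℝ) / w + 2) := by
    intro t
    have h1 : (((S.biUnion fun p => F p t).card : ℕ) : ℝ) ≤ ∑ p ∈ S, ((F p t).card : ℝ) := by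
      exact_mod_cast card_biUnion_le
    refine h1.trans ?_
    rw [← nsmul_eq_mul, ← sum_const]
    refine sum_le_sum fun p hp => ?_
    rw [hS, mem_filter] at hp
    have hpp := Nat.prime_of_mem_primeFactors hp.1
    refine (card_dvd J p a₀ (QQ w) t hpp.pos (cop_QQ hpp hp.2)).trans ?_
    have hwp : (w : ℝ) ≤ p := by exact_mod_cast hp.2.le
    gcongr
  have hTb : ∀ t : ℤ, (((T.biUnion fun p => F (p ^ 2) t).card : ℕ) : ℝ) ≤ (J : ℝ) / w + 2 * D := by
    intro t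
    have h1 : (((T.biUnion fun p => F (p ^ 2) t).card : ℕ) : ℝ) ≤
        ∑ p ∈ T, ((F (p ^ 2) t).card : ℝ) := by
      exact_mod_cast card_biUnion_le
    refine h1.trans ?_
    have h2 : ∑ p ∈ T, ((F (p ^ 2) t).card : ℝ) ≤ ∑ p ∈ T, ((J : ℝ) / ((p ^ 2 : ℕ) : ℝ) + 2) := by
      refine sum_le_sum fun p hp => ?_
      rw [mem_filter, mem_Ioc] at hp
      exact card_dvd J (p ^ 2) a₀ (QQ w) t (pow_pos hp.2.pos 2)
        (Nat.Coprime.pow_left 2 (cop_QQ hp.2 hp.1.1))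
    refine h2.trans ((sum_le_sum_of_subset_of_nonneg (filter_subset _ _) ?_).trans
      (sum_sq w D (by omega) J hJ0))
    intro p _ _
    positivity
  have hB : ((B.card : ℕ) : ℝ) < J := by
    have h1 : B.card ≤ (S.biUnion fun p => F p 0).card + (S.biUnion fun p => F p s).card +
        ((T.biUnion fun p => F (p ^ 2) 0).card + (T.biUnion fun p => F (p ^ 2) s).card) := by
      refine (card_union_le _ _).trans ?_
      exact Nat.add_le_add (card_union_le _ _) (card_union_le _ _)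
    have h2 : ((B.card : ℕ) : ℝ) ≤ (((S.biUnion fun p => F p 0).card : ℕ) : ℝ) +
        (((S.biUnion fun p => F p s).card : ℕ) : ℝ) +
        ((((T.biUnion fun p => F (p ^ 2) 0).card : ℕ) : ℝ) +
          (((T.biUnion fun p => F (p ^ 2) s).card : ℕ) : ℝ)) := by
      exact_mod_cast h1
    have := hSb 0
    have := hSb s
    have := hTb 0
    have := hTb s
    linarith
  have hex : ∃ j ∈ Ico J (2 * J), j ∉ B := by
    by_contra hcon
    push Not at hcon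
    have h1 : Ico J (2 * J) ⊆ B := fun j hj => hcon j hj
    have h2 := card_le_card h1
    rw [Nat.card_Ico] at h2
    have h3 : J ≤ B.card := by omega
    have h4 : (J : ℝ) ≤ B.card := by exact_mod_cast h3
    linarith
  obtain ⟨j, hj, hjB⟩ := hex
  have hn1 : ∀ p ∈ S, ¬ (p : ℤ) ∣ ((a₀ + QQ w * j : ℕ) : ℤ) := by
    intro p hp hd
    apply hjB
    refine mem_union_left _ (mem_union_left _ (mem_biUnion.2 ⟨p, hp, ?_⟩))
    exact mem_filter.2 ⟨hj, by rwa [add_zero]⟩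
  have hn2 : ∀ p ∈ S, ¬ (p : ℤ) ∣ ((a₀ + QQ w * j : ℕ) : ℤ) + s := by
    intro p hp hd
    apply hjB
    refine mem_union_left _ (mem_union_right _ (mem_biUnion.2 ⟨p, hp, ?_⟩))
    exact mem_filter.2 ⟨hj, hd⟩
  have hn3 : ∀ p ∈ T, ¬ ((p ^ 2 : ℕ) : ℤ) ∣ ((a₀ + QQ w * j : ℕ) : ℤ) := by
    intro p hp hd
    apply hjB
    refine mem_union_right _ (mem_union_left _ (mem_biUnion.2 ⟨p, hp, ?_⟩))
    exact mem_filter.2 ⟨hj, by rwa [add_zero]⟩
  have hn4 : ∀ p ∈ T, ¬ ((p ^ 2 : ℕ) : ℤ) ∣ ((a₀ + QQ w * j : ℕ) : ℤ) + s := by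
    intro p hp hd
    apply hjB
    refine mem_union_right _ (mem_union_right _ (mem_biUnion.2 ⟨p, hp, ?_⟩))
    exact mem_filter.2 ⟨hj, hd⟩
  obtain ⟨c1, c2, c3, c4⟩ := hcl (a₀ + QQ w * j) (by simp [Nat.ModEq])
  set a := a₀ + QQ w * j with ha
  have hD1' := hD1 j hj
  have hD2' := hD2 j hj
  have hTm : ∀ p : ℕ, p.Prime → w < p → p ^ 2 < D ^ 2 → p ∈ T := by
    intro p hp h1 h2
    have h3 : p < D := lt_of_pow_lt_pow_left₀ 2 (Nat.zero_le _) h2
    exact mem_filter.2 ⟨mem_Ioc.2 ⟨h1, h3.le⟩, hp⟩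
  have hSm : ∀ p : ℕ, p.Prime → w < p → p ∣ P * s.natAbs → p ∈ S := by
    intro p hp h1 h2
    rw [hS]
    exact mem_filter.2 ⟨Nat.mem_primeFactors.2 ⟨hp, h2, hN⟩, h1⟩
  have hs0 : (a : ℤ) + s ≠ 0 := by
    intro h
    exact c3 (by rw [h]; exact dvd_zero _)
  have ha0 : a ≠ 0 := by
    intro h
    exact c1 2 Nat.prime_two hw (by rw [h]; exact dvd_zero _)
  refine ⟨j, hj, ?_, ?_, ?_, ?_, ?_⟩
  · rw [Nat.squarefree_iff_prime_squarefree]
    intro p hp hd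
    by_cases hpw : p ≤ w
    · exact c1 p hp hpw ((dvd_mul_right p p).trans hd)
    · rw [not_le] at hpw
      have h1 : p ^ 2 ∣ a := by rwa [pow_two]
      have h2 := Nat.le_of_dvd (Nat.pos_of_ne_zero ha0) h1
      exact hn3 p (hTm p hp hpw (by omega)) (by exact_mod_cast h1)
  · rw [Nat.squarefree_iff_prime_squarefree]
    intro p hp hd
    have hd' : ((p ^ 2 : ℕ) : ℤ) ∣ (a : ℤ) + s := by
      rw [pow_two]
      exact Int.natCast_dvd.2 hd
    by_cases hpw : p ≤ w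
    · by_cases hp2 : p = 2
      · subst hp2
        exact c3 (by simpa using hd')
      · refine c2 p hp hpw hp2 (dvd_trans ?_ hd')
        rw [pow_two]
        push_cast
        exact dvd_mul_right _ _
    · rw [not_le] at hpw
      have h2 := Nat.le_of_dvd (Int.natAbs_pos.2 hs0) hd
      rw [← pow_two] at h2
      exact hn4 p (hTm p hp hpw (by omega)) hd'
  · refine Nat.Coprime.symm (Nat.Coprime.symm (Nat.coprime_of_dvd fun p hp h1 h2 => ?_))
    by_cases hpw : p ≤ w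
    · exact c1 p hp hpw h1
    · rw [not_le] at hpw
      exact hn1 p (hSm p hp hpw (Dvd.dvd.mul_right h2 _)) (by exact_mod_cast h1)
  · refine Nat.coprime_of_dvd fun p hp h1 h2 => ?_
    have h1' : (p : ℤ) ∣ (a : ℤ) + s := Int.natCast_dvd.2 h1
    by_cases hpw : p ≤ w
    · by_cases hp2 : p = 2
      · subst hp2
        exact c4 (hpar h2) h1'
      · exact c2 p hp hpw hp2 h1'
    · rw [not_le] at hpw
      exact hn2 p (hSm p hp hpw (Dvd.dvd.mul_right h2 _)) h1'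
  · refine Nat.coprime_of_dvd fun p hp h1 h2 => ?_
    by_cases hpw : p ≤ w
    · exact c1 p hp hpw h1
    · rw [not_le] at hpw
      exact hn1 p (hSm p hp hpw (Dvd.dvd.mul_left h2 _)) (by exact_mod_cast h1)

/-- the number of the large primes dividing a number -/
theorem card_large (w N : ℕ) (hw : 1 ≤ w) (hN : N ≠ 0) :
    ((N.primeFactors.filter fun p => w < p).card : ℝ) * Real.log w ≤ Real.log N := by
  set S := N.primeFactors.filter fun p => w < p with hS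
  have h1 : w ^ S.card ≤ ∏ p ∈ S, p := by
    refine Finset.pow_card_le_prod _ _ _ fun p hp => ?_
    rw [hS, mem_filter] at hp
    exact hp.2.le
  have h2 : ∏ p ∈ S, p ≤ N := by
    refine Nat.le_of_dvd (Nat.pos_of_ne_zero hN) (dvd_trans ?_ (Nat.prod_primeFactors_dvd N))
    exact prod_dvd_prod_of_subset _ _ _ (filter_subset _ _)
  have h3 : ((w : ℝ)) ^ S.card ≤ N := by exact_mod_cast h1.trans h2
  have hw0 : (0 : ℝ) < w := by exact_mod_cast hw
  have h4 := Real.log_le_log (by positivity) h3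
  rwa [Real.log_pow] at h4

/-- **Core.** -/
theorem core (K : ℕ) : ∃ A₀ : ℕ, ∀ A : ℕ, A₀ ≤ A → ∀ (P : ℕ) (s : ℤ), 0 < P → s ≠ 0 →
    s.natAbs ≤ K * A → P ≤ A ^ K → (2 ∣ P → (2 : ℤ) ∣ s) →
    ∃ a : ℕ, A < a ∧ a ≤ 3 * A ∧ Squarefree a ∧ Squarefree ((a : ℤ) + s).natAbs ∧
      a.Coprime P ∧ ((a : ℤ) + s).natAbs.Coprime P ∧ a.Coprime s.natAbs := by
  refine ⟨⌈Real.exp (8 * (Real.exp (256 * ((K : ℝ) + 2)) + 17))⌉₊, fun A hA P s hP hs hsA hPA hpar => ?_⟩
  set E := Real.exp (256 * ((K : ℝ) + 2)) with hE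
  have hK0 : (0 : ℝ) ≤ K := Nat.cast_nonneg K
  have hE1 : 256 * ((K : ℝ) + 2) + 1 ≤ E := Real.add_one_le_exp _
  have hA1 : Real.exp (8 * (E + 17)) ≤ A := (Nat.le_ceil _).trans (by exact_mod_cast hA)
  have hA0 : (0 : ℝ) < A := (Real.exp_pos _).trans_le hA1
  set L := Real.log A with hL
  have hL1 : 8 * (E + 17) ≤ L := by
    rw [hL, Real.le_log_iff_exp_le hA0]
    exact hA1
  set y := Real.exp (L / 4) with hy
  have hyA : y ^ 4 = A := by
    rw [hy, ← Real.exp_nat_mul]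
    have : ((4 : ℕ) : ℝ) * (L / 4) = L := by push_cast; ring
    rw [this, hL, Real.exp_log hA0]
  have hy1 : 2 * E + 35 ≤ y := by
    have := Real.add_one_le_exp (L / 4)
    rw [← hy] at this
    linarith
  have hy2 : 64 * (K : ℝ) + 320 ≤ y := by linarith
  have hy0 : 0 < y := Real.exp_pos _
  set w := ⌊L / 8⌋₊ with hw
  have hw1 : (w : ℝ) ≤ L / 8 := Nat.floor_le (by linarith)
  have hw2 : L / 8 < w + 1 := Nat.lt_floor_add_one _
  have hw3 : E + 16 ≤ w := by linarith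
  have hw16 : (16 : ℝ) ≤ w := by linarith
  have hw0 : (0 : ℝ) < w := by linarith
  have hwn : 16 ≤ w := by exact_mod_cast hw16
  have hlw : 256 * ((K : ℝ) + 2) ≤ Real.log w := by
    rw [Real.le_log_iff_exp_le hw0, ← hE]
    linarith
  -- the modulus
  have hQ1 : ((QQ w : ℕ) : ℝ) ≤ 2 * y := by
    have h1 : ((QQ w : ℕ) : ℝ) ≤ 2 * 4 ^ w := by exact_mod_cast QQ_le w
    have h2 : (4 : ℝ) ^ w ≤ y := by
      have h3 : (4 : ℝ) ≤ Real.exp 2 := by
        have h4 := Real.exp_one_gt_d9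
        have h5 : Real.exp 2 = Real.exp 1 ^ 2 := by
          rw [← Real.exp_nat_mul]; norm_num
        rw [h5]
        nlinarith
      calc (4 : ℝ) ^ w ≤ (Real.exp 2) ^ w := by gcongr
        _ = Real.exp (w * 2) := by rw [← Real.exp_nat_mul]
        _ ≤ y := by
          rw [hy]
          apply Real.exp_le_exp.2
          linarith
    linarith
  have hQ0 : (0 : ℝ) < QQ w := by exact_mod_cast QQ_pos w
  obtain ⟨a₀, ha₀, hcl⟩ := good_class s w (by omega)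
  set J := A / QQ w + 1 with hJ
  have hJ1 : (A : ℝ) / QQ w < J := by
    rw [div_lt_iff₀ hQ0]
    have h1 := Nat.lt_div_mul_add (a := A) (QQ_pos w)
    have h2 : A < (A / QQ w + 1) * QQ w := by rw [add_mul, one_mul]; exact h1
    rw [hJ]
    exact_mod_cast h2
  have hJ2 : y ^ 3 / 2 ≤ J := by
    refine le_trans ?_ hJ1.le
    rw [← hyA, div_le_div_iff₀ (by norm_num) hQ0]
    calc y ^ 3 * QQ w ≤ y ^ 3 * (2 * y) := by gcongr
      _ = y ^ 4 * 2 := by ring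
  have hJ0 : (0 : ℝ) < J := lt_of_lt_of_le (by positivity) hJ2
  have hQJ : QQ w * J ≤ A + QQ w := by
    rw [hJ, mul_add, mul_one]
    exact Nat.add_le_add_right (Nat.mul_div_le A (QQ w)) _
  have hQA : 2 * QQ w ≤ A := by
    have h1 : 2 * ((QQ w : ℕ) : ℝ) ≤ A := by
      rw [← hyA]
      have h2 : (4 : ℝ) ≤ y ^ 3 := by
        have : (1 : ℝ) ≤ y := by linarith
        nlinarith [pow_le_pow_left₀ (by norm_num : (0 : ℝ) ≤ 4) (by linarith : (4 : ℝ) ≤ y) 3]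
      calc 2 * ((QQ w : ℕ) : ℝ) ≤ 4 * y := by linarith
        _ ≤ y ^ 3 * y := by gcongr
        _ = y ^ 4 := by ring
    exact_mod_cast h1
  have hrange : ∀ j ∈ Ico J (2 * J), A < a₀ + QQ w * j ∧ a₀ + QQ w * j ≤ 3 * A := by
    intro j hj
    rw [mem_Ico] at hj
    constructor
    · have h1 := Nat.lt_div_mul_add (a := A) (QQ_pos w)
      have h2 : QQ w * J = A / QQ w * QQ w + QQ w := by rw [hJ]; ring
      have h3 : QQ w * J ≤ QQ w * j := Nat.mul_le_mul_left _ hj.1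
      omega
    · have h1 : QQ w * (j + 1) ≤ QQ w * (2 * J) := Nat.mul_le_mul_left _ hj.2
      have h2 : QQ w * (j + 1) = QQ w * j + QQ w := by ring
      have h3 : QQ w * (2 * J) = 2 * (QQ w * J) := by ring
      omega
  set D := Nat.sqrt ((K + 3) * A) + 1 with hD
  have hD1 : (K + 3) * A < D ^ 2 := by
    rw [hD, pow_two]
    exact Nat.lt_succ_sqrt _
  have hD2 : (D : ℝ) ≤ (K + 4) * y ^ 2 := by
    have h1 : Nat.sqrt ((K + 3) * A) ^ 2 ≤ (K + 3) * A := by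
      rw [pow_two]; exact Nat.sqrt_le _
    have h2 : ((Nat.sqrt ((K + 3) * A) : ℕ) : ℝ) ^ 2 ≤ ((K : ℝ) + 3) * A := by exact_mod_cast h1
    have h3 : ((Nat.sqrt ((K + 3) * A) : ℕ) : ℝ) ≤ ((K : ℝ) + 3) * y ^ 2 := by
      rw [← pow_le_pow_iff_left₀ (by positivity) (by positivity) (by norm_num : (2 : ℕ) ≠ 0)]
      refine h2.trans ?_
      rw [← hyA]
      have : ((K : ℝ) + 3) ≤ ((K : ℝ) + 3) ^ 2 := by nlinarith
      calc ((K : ℝ) + 3) * y ^ 4 ≤ ((K : ℝ) + 3) ^ 2 * y ^ 4 := by gcongr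
        _ = (((K : ℝ) + 3) * y ^ 2) ^ 2 := by ring
    have h4 : (1 : ℝ) ≤ y ^ 2 := by
      have : (1 : ℝ) ≤ y := by linarith
      nlinarith
    rw [hD]
    push_cast
    nlinarith
  have hKA : K ≤ A := by
    have h1 : (K : ℝ) ≤ A := by
      rw [← hyA]
      have h2 : (1 : ℝ) ≤ y := by linarith
      have h3 : y ≤ y ^ 4 := le_self_pow₀ h2 (by norm_num)
      linarith
    exact_mod_cast h1
  have hApos : 0 < A := by exact_mod_cast hA0
  have hk : (((P * s.natAbs).primeFactors.filter fun p => w < p).card : ℝ) ≤ w / 16 := by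
    have hN : P * s.natAbs ≠ 0 := mul_ne_zero hP.ne' (Int.natAbs_ne_zero.2 hs)
    have h1 := card_large w (P * s.natAbs) (by omega) hN
    have h2 : P * s.natAbs ≤ A ^ (K + 2) := by
      calc P * s.natAbs ≤ A ^ K * (K * A) := Nat.mul_le_mul hPA hsA
        _ ≤ A ^ K * (A * A) := Nat.mul_le_mul_left _ (Nat.mul_le_mul_right _ hKA)
        _ = A ^ (K + 2) := by ring
    have h3 : Real.log ((P * s.natAbs : ℕ) : ℝ) ≤ (K + 2) * L := by
      have h4 : ((P * s.natAbs : ℕ) : ℝ) ≤ (A : ℝ) ^ (K + 2) := by exact_mod_cast h2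
      have h5 := Real.log_le_log (by exact_mod_cast Nat.pos_of_ne_zero hN) h4
      rw [Real.log_pow] at h5
      push_cast at h5
      push_cast
      exact h5
    set k := (((P * s.natAbs).primeFactors.filter fun p => w < p).card : ℝ) with hkdef
    have hk0 : 0 ≤ k := Nat.cast_nonneg _
    have h4 : k * (256 * ((K : ℝ) + 2)) ≤ k * Real.log w := mul_le_mul_of_nonneg_left hlw hk0
    have h5 : (K + 2) * L ≤ ((K : ℝ) + 2) * (16 * w) := by
      apply mul_le_mul_of_nonneg_left _ (by linarith)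
      linarith
    have h6 : k * (256 * ((K : ℝ) + 2)) ≤ ((K : ℝ) + 2) * (16 * w) :=
      h4.trans (h1.trans (h3.trans h5))
    have hK2 : (0 : ℝ) < (K : ℝ) + 2 := by linarith
    have h7 : ((K : ℝ) + 2) * (256 * k) ≤ ((K : ℝ) + 2) * (16 * w) := by linarith
    have h8 := le_of_mul_le_mul_left h7 hK2
    linarith
  have hwy : (w : ℝ) ≤ y := by
    have := Real.add_one_le_exp (L / 4)
    rw [← hy] at this
    linarith
  have hlt : 2 * ((((P * s.natAbs).primeFactors.filter fun p => w < p).card : ℝ) *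
      ((J : ℝ) / w + 2)) + 2 * ((J : ℝ) / w + 2 * D) < J := by
    have h1 : (((P * s.natAbs).primeFactors.filter fun p => w < p).card : ℝ) * ((J : ℝ) / w + 2) ≤
        (w / 16) * ((J : ℝ) / w + 2) := by
      apply mul_le_mul_of_nonneg_right hk (by positivity)
    have h2 : ((w : ℝ) / 16) * ((J : ℝ) / w + 2) = J / 16 + w / 8 := by
      field_simp
      ring
    have h3 : (J : ℝ) / w ≤ J / 16 := by
      apply div_le_div_of_nonneg_left hJ0.le (by norm_num) hw16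
    have h4 : 4 * (D : ℝ) + w / 4 ≤ y ^ 3 / 4 := by
      have h5 : (w : ℝ) ≤ y ^ 2 := by nlinarith
      have h6 : 4 * (D : ℝ) + w / 4 ≤ (4 * K + 17) * y ^ 2 := by
        have : 0 ≤ y ^ 2 := by positivity
        linarith
      refine h6.trans ?_
      have h7 : (4 * (K : ℝ) + 17) ≤ y / 4 := by linarith
      calc (4 * (K : ℝ) + 17) * y ^ 2 ≤ y / 4 * y ^ 2 := by gcongr
        _ = y ^ 3 / 4 := by ring
    have h8 : y ^ 3 / 4 ≤ J / 2 := by linarith
    linarith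
  have hbnd : ∀ j ∈ Ico J (2 * J), a₀ + QQ w * j < D ^ 2 := by
    intro j hj
    have h1 := (hrange j hj).2
    have h2 : 3 * A ≤ (K + 3) * A := Nat.mul_le_mul_right _ (by omega)
    omega
  have hbnd2 : ∀ j ∈ Ico J (2 * J), (((a₀ + QQ w * j : ℕ) : ℤ) + s).natAbs < D ^ 2 := by
    intro j hj
    have h1 := (hrange j hj).2
    have h2 : (((a₀ + QQ w * j : ℕ) : ℤ) + s).natAbs ≤ (a₀ + QQ w * j) + s.natAbs := by
      refine (Int.natAbs_add_le _ _).trans ?_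
      rw [Int.natAbs_natCast]
    have h3 : (K + 3) * A = K * A + 3 * A := by ring
    omega
  obtain ⟨j, hj, h1, h2, h3, h4, h5⟩ := exists_of_lt (J := J) (D := D) (by omega) hP hs hpar hcl hbnd
    hbnd2 hlt
  exact ⟨a₀ + QQ w * j, (hrange j hj).1, (hrange j hj).2, h1, h2, h3, h4, h5⟩

end Pool.Agent.H423.SN
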