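import Pool.Agent.H423.SN.An
import Pool.Graph.R_seed8.TH96.NC.Even3

set_option autoImplicit false

namespace Pool.Agent.H423.SN

open Finset

theorem fam_of {m : ℕ} {s : ℤ} {u v C : ℝ} (hu : 0 < u) (hv : 0 < v)
    (h : ∀ N : ℝ, ∃ (l : ℝ) (F : Fin m → ℤ), N < l ∧ PC F ∧ ∑ i, F i = s ∧
      ((2 : ℤ) ∣ ∏ i, F i → (2 : ℤ) ∣ s) ∧ LR F ≤ C + u * l ∧ v * l ≤ LH F) (q : ℝ)
    (hq : q < v / u) : Fam m s q := by
  intro N
  have hq' : 0 < v - q * u := by
    rw [lt_div_iff₀ hu] at hq; linarith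
  obtain ⟨l, F, h1, h2, h3, h4, h5, h6⟩ := h (max (N / v) (max 0 (q * C / (v - q * u))))
  have hN : N < v * l := by
    have := (le_max_left _ _).trans_lt h1
    rw [div_lt_iff₀ hv] at this
    linarith
  have hl0 : 0 < l := ((le_max_left _ _).trans (le_max_right _ _)).trans_lt h1
  have hl : q * C < (v - q * u) * l := by
    have := ((le_max_right _ _).trans (le_max_right _ _)).trans_lt h1
    rw [div_lt_iff₀ hq'] at this
    linarith
  refine ⟨F, h2, h3, h4, by linarith, ?_⟩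
  rcases le_or_gt q 0 with h7 | h7
  · have h8 : q * LR F ≤ 0 := mul_nonpos_of_nonpos_of_nonneg h7 (LR_nonneg F)
    have : 0 < v * l := mul_pos hv hl0
    linarith
  · have h8 := mul_le_mul_of_nonneg_left h5 h7.le
    have e : q * (C + u * l) = q * C + q * u * l := by ring
    linarith

/-- the radical divides every multiple of all prime factors of the entries -/
theorem rd_le_of {m : ℕ} {F : Fin m → ℤ} {W : ℕ} (hW : 0 < W)
    (h : ∀ p : ℕ, p.Prime → ∀ i, (p : ℤ) ∣ F i → p ∣ W) : rd F ≤ W := by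
  refine le_trans ?_ (Nat.le_of_dvd hW (Nat.prod_primeFactors_dvd W))
  unfold rd
  refine Finset.prod_le_prod_of_subset_of_one_le' ?_ ?_
  · intro p hp
    have hp1 := Nat.prime_of_mem_primeFactors hp
    have hp2 := Nat.dvd_of_mem_primeFactors hp
    rw [Nat.mem_primeFactors]
    refine ⟨hp1, ?_, hW.ne'⟩
    have hp3 : (p : ℤ) ∣ ∏ i : Fin m, F i := Int.natCast_dvd.mpr hp2
    obtain ⟨i, -, hi⟩ := (Nat.prime_iff_prime_int.mp hp1).exists_mem_finset_dvd hp3
    exact h p hp1 i hi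
  · intro p hp _
    exact (Nat.prime_of_mem_primeFactors hp).one_le

theorem pc_of_lt {m : ℕ} {F : Fin m → ℤ} (h0 : ∀ i, F i ≠ 0)
    (h : ∀ i j : Fin m, i < j → IsCoprime (F i) (F j)) : PC F := by
  refine ⟨h0, fun i j hij => ?_⟩
  rcases lt_or_gt_of_ne hij with h1 | h1
  · exact h i j h1
  · exact (h j i h1).symm

theorem LH_ge {m : ℕ} {F : Fin m → ℤ} {N : ℕ} (hN : 0 < N) (i : Fin m) (h : N ≤ (F i).natAbs) :
    Real.log N ≤ LH F :=
  Real.log_le_log (by exact_mod_cast hN) (by exact_mod_cast h.trans (le_sz F i))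

theorem LR_le {m : ℕ} {F : Fin m → ℤ} {C X : ℝ} (e : ℕ) (hC : 0 < C) (hX : 0 < X)
    (h : (rd F : ℝ) ≤ C * X ^ e) : LR F ≤ Real.log C + e * Real.log X := by
  have h0 : (0 : ℝ) < rd F := by exact_mod_cast rd_pos F
  have := Real.log_le_log h0 h
  rwa [Real.log_mul hC.ne' (by positivity), Real.log_pow] at this

/-! ### even lengths -/

/-- index map -/
def iot (i : ℕ) : ℕ := if i < 4 then i else i + 2

theorem iot_lt {i j : ℕ} (h : i < j) : iot i < iot j := by
  unfold iot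
  split_ifs <;> omega

open Pool.Agent.TH96.NC in
theorem sum_even (X : ℤ) (k : ℕ) : ∑ j ∈ range (4 + 2 * k), ent X (iot j) = cA - 1 := by
  induction k with
  | zero =>
    simp only [mul_zero, add_zero, sum_range_succ, sum_range_zero, iot]
    norm_num [ent, cA]
    ring
  | succ k ih =>
    have h : 4 + 2 * (k + 1) = 4 + 2 * k + 1 + 1 := by ring
    rw [h, sum_range_succ, sum_range_succ, ih]
    have h1 : iot (4 + 2 * k) = (2 * k) + 6 := by unfold iot; split_ifs <;> omega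
    have h2 : iot (4 + 2 * k + 1) = (2 * k + 1) + 6 := by unfold iot; split_ifs <;> omega
    rw [h2, h1]
    simp only [ent, pow_succ, pow_mul]
    norm_num
    ring

open Pool.Agent.TH96.NC in
theorem ent_iot (X : ℤ) : ent X (iot 0) = X ^ 7 := by
  have h : iot 0 = 0 := by decide
  rw [h]
  rfl

open Pool.Agent.TH96.NC in
theorem fam_even (k : ℕ) (q : ℝ) (hq : q < 7 / 5) : Fam (4 + 2 * k) (cA - 1) q := by
  refine fam_of (u := 5) (v := 7) (C := Real.log cK) (by norm_num) (by norm_num) (fun N => ?_) q hq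
  obtain ⟨t, ht⟩ : ∃ t : ℕ, 48 ≤ t ∧ Real.exp (max N 0) < t :=
    ⟨max 48 (⌈Real.exp (max N 0)⌉₊ + 1), le_max_left _ _, by
      have h1 : ((⌈Real.exp (max N 0)⌉₊ + 1 : ℕ) : ℝ) ≤
        ((max 48 (⌈Real.exp (max N 0)⌉₊ + 1) : ℕ) : ℝ) := by exact_mod_cast le_max_right _ _
      have h2 := Nat.le_ceil (Real.exp (max N 0))
      push_cast at h1
      push_cast
      linarith⟩
  obtain ⟨ht1, ht2⟩ := ht
  set Xn : ℕ := 11 ^ ex t with hXn
  have hX48 : 48 < Xn := tup_large ht1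
  have hX48' : (48 : ℤ) < (Xn : ℤ) := by exact_mod_cast hX48
  obtain ⟨z, hz⟩ := ex_mod t
  rw [← hXn] at hz
  have hXt : (t : ℝ) < Xn := by exact_mod_cast ex_large t
  have hX0 : (0 : ℝ) < Xn := lt_of_le_of_lt (Nat.cast_nonneg t) hXt
  refine ⟨Real.log Xn, fun i => ent (Xn : ℤ) (iot i), ?_, ?_, ?_, ?_, ?_, ?_⟩
  · have h1 : N < Real.log Xn := by
      rw [Real.lt_log_iff_exp_lt hX0]
      calc Real.exp N ≤ Real.exp (max N 0) := Real.exp_le_exp.2 (le_max_left _ _)
        _ < t := ht2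
        _ < Xn := hXt
    exact h1
  · refine pc_of_lt (fun i => ent_ne hX48' _) fun i j hij => ?_
    exact ent_cop hz _ _ (iot_lt hij)
  · rw [Fin.sum_univ_eq_sum_range (fun i => ent (Xn : ℤ) (iot i)) (4 + 2 * k)]
    exact sum_even _ k
  · intro _
    unfold cA
    norm_num
  · have h1 : rd (fun i : Fin (4 + 2 * k) => ent (Xn : ℤ) (iot i)) ≤
        11 * 7495 * 7 * 6337 * 1369826131969 * Xn ^ 5 := by
      refine le_trans ?_ (wit_le hX48)
      refine rd_le_of (wit_pos hX48) fun p hp i hi => ?_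
      exact prime_dvd_wit hX48 rfl hp _ hi
    have h2 : (rd (fun i : Fin (4 + 2 * k) => ent (Xn : ℤ) (iot i)) : ℝ) ≤ cK * (Xn : ℝ) ^ 5 := by
      rw [← castK]
      exact_mod_cast h1
    have := LR_le 5 cK_pos hX0 h2
    exact_mod_cast this
  · have h1 : Real.log ((Xn ^ 7 : ℕ) : ℝ) ≤ LH (fun i : Fin (4 + 2 * k) => ent (Xn : ℤ) (iot i)) := by
      refine LH_ge (pow_pos (by omega) 7) ⟨0, by omega⟩ ?_
      show Xn ^ 7 ≤ (ent (Xn : ℤ) (iot 0)).natAbs
      rw [ent_iot, Int.natAbs_pow, Int.natAbs_natCast]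
    rw [Nat.cast_pow, Real.log_pow] at h1
    exact_mod_cast h1

/-! ### odd lengths -/

/-- the entries for odd lengths -/
def eo (X : ℤ) : ℕ → ℤ
  | 0 => X ^ 5
  | 1 => -(X - 2) ^ 5
  | 2 => -(10 * ((X - 1) ^ 2 + 1) ^ 2)
  | (j + 3) => (-1) ^ j

theorem sum_odd (X : ℤ) (k : ℕ) : ∑ j ∈ range (3 + 2 * k), eo X j = -8 := by
  induction k with
  | zero =>
    simp only [mul_zero, add_zero, sum_range_succ, sum_range_zero, eo]
    ring
  | succ k ih =>
    have h : 3 + 2 * (k + 1) = 3 + 2 * k + 1 + 1 := by ring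
    rw [h, sum_range_succ, sum_range_succ, ih]
    have h1 : 3 + 2 * k = (2 * k) + 3 := by ring
    have h2 : 3 + 2 * k + 1 = (2 * k + 1) + 3 := by ring
    rw [h2, h1]
    simp only [eo, pow_succ, pow_mul]
    norm_num

theorem eo_cop {X z : ℤ} (hz : X = 1 + 70 * z) : ∀ i j : ℕ, i < j → IsCoprime (eo X i) (eo X j) := by
  have h10 : IsCoprime X 10 := ⟨1, -7 * z, by rw [hz]; ring⟩
  have h2 : IsCoprime X 2 := ⟨1, -35 * z, by rw [hz]; ring⟩
  have hY10 : IsCoprime (X - 2) 10 := ⟨-1, 7 * z, by rw [hz]; ring⟩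
  have hY2 : IsCoprime (X - 2) 2 := ⟨-1, 35 * z, by rw [hz]; ring⟩
  have hXY : IsCoprime X (X - 2) := by
    have e : X - 2 = -2 + X * 1 := by ring
    rw [e]
    exact (h2.neg_right).add_mul_left_right 1
  have hXZ : IsCoprime X ((X - 1) ^ 2 + 1) := by
    have e : (X - 1) ^ 2 + 1 = 2 + X * (X - 2) := by ring
    rw [e]
    exact h2.add_mul_left_right _
  have hYZ : IsCoprime (X - 2) ((X - 1) ^ 2 + 1) := by
    have e : (X - 1) ^ 2 + 1 = 2 + (X - 2) * X := by ring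
    rw [e]
    exact hY2.add_mul_left_right _
  intro i j hij
  rcases j with _ | _ | _ | j
  · omega
  · obtain rfl : i = 0 := by omega
    simp only [eo]
    exact (hXY.pow).neg_right
  · rcases i with _ | _ | i
    · simp only [eo]
      exact ((h10.pow_left).mul_right (hXZ.pow)).neg_right
    · simp only [eo]
      exact (((hY10.pow_left).mul_right (hYZ.pow)).neg_right).neg_left
    · omega
  · simp only [eo]
    have h : IsUnit ((-1 : ℤ) ^ j) := (isUnit_one.neg).pow j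
    obtain ⟨u, hu⟩ := h
    rw [← hu]
    exact ⟨0, ((u⁻¹ : ℤˣ) : ℤ), by simp⟩

theorem eo_ne {X : ℤ} (hX : 2 < X) (i : ℕ) : eo X i ≠ 0 := by
  rcases i with _ | _ | _ | i
  · simp only [eo]; positivity
  · simp only [eo, neg_ne_zero]
    have : 0 < X - 2 := by linarith
    positivity
  · simp only [eo, neg_ne_zero]
    positivity
  · simp only [eo]
    exact pow_ne_zero _ (by norm_num)

theorem fam_odd (k : ℕ) (q : ℝ) (hq : q < 5 / 3) : Fam (3 + 2 * k) (-8) q := by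
  refine fam_of (u := 3) (v := 5) (C := Real.log 710) (by norm_num) (by norm_num) (fun N => ?_) q hq
  obtain ⟨t, ht1, ht2⟩ : ∃ t : ℕ, 1 ≤ t ∧ Real.exp (max N 0) < t :=
    ⟨⌈Real.exp (max N 0)⌉₊ + 1, by omega, by
      have h2 := Nat.le_ceil (Real.exp (max N 0))
      push_cast
      linarith⟩
  set Xn : ℕ := 71 ^ t with hXn
  have hX71 : 71 ≤ Xn := by
    calc 71 = 71 ^ 1 := by norm_num
      _ ≤ 71 ^ t := Nat.pow_le_pow_right (by norm_num) ht1
  have hX2' : (2 : ℤ) < (Xn : ℤ) := by exact_mod_cast (by omega : 2 < Xn)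
  obtain ⟨z, hz⟩ : ∃ z : ℤ, (Xn : ℤ) = 1 + 70 * z := by
    have h1 : (71 : ℤ) - 1 ∣ 71 ^ t - 1 := sub_one_dvd_pow_sub_one 71 t
    obtain ⟨z, hz⟩ := h1
    refine ⟨z, ?_⟩
    rw [hXn]
    push_cast
    linarith
  have hXt : (t : ℝ) < Xn := by exact_mod_cast Nat.lt_pow_self (by norm_num : 1 < 71)
  have hX0 : (0 : ℝ) < Xn := lt_of_le_of_lt (Nat.cast_nonneg t) hXt
  refine ⟨Real.log Xn, fun i => eo (Xn : ℤ) i, ?_, ?_, ?_, ?_, ?_, ?_⟩
  · rw [Real.lt_log_iff_exp_lt hX0]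
    calc Real.exp N ≤ Real.exp (max N 0) := Real.exp_le_exp.2 (le_max_left _ _)
      _ < t := ht2
      _ < Xn := hXt
  · exact pc_of_lt (fun i => eo_ne hX2' _) fun i j hij => eo_cop hz _ _ hij
  · rw [Fin.sum_univ_eq_sum_range (fun i => eo (Xn : ℤ) i) (3 + 2 * k)]
    exact sum_odd _ k
  · intro _
    norm_num
  · have h1 : rd (fun i : Fin (3 + 2 * k) => eo (Xn : ℤ) i) ≤
        71 * (Xn - 2) * (10 * ((Xn - 1) ^ 2 + 1)) := by
      refine rd_le_of ?_ fun p hp i hi => ?_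
      · have : 0 < Xn - 2 := by omega
        positivity
      · have hpI : Prime (p : ℤ) := Nat.prime_iff_prime_int.mp hp
        have e1 : ((Xn : ℤ) - 2) = ((Xn - 2 : ℕ) : ℤ) := by omega
        have e2 : ((Xn : ℤ) - 1) = ((Xn - 1 : ℕ) : ℤ) := by omega
        obtain ⟨i, hi0⟩ := i
        change (p : ℤ) ∣ eo (Xn : ℤ) i at hi
        rcases i with _ | _ | _ | i
        · simp only [eo] at hi
          have h3 := hpI.dvd_of_dvd_pow hi
          have h4 : p ∣ Xn := by exact_mod_cast h3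
          have h5 : p ∣ 71 := hp.dvd_of_dvd_pow h4
          exact Dvd.dvd.mul_right (Dvd.dvd.mul_right h5 _) _
        · simp only [eo, dvd_neg] at hi
          have h3 := hpI.dvd_of_dvd_pow hi
          rw [e1] at h3
          have h4 : p ∣ Xn - 2 := by exact_mod_cast h3
          exact Dvd.dvd.mul_right (Dvd.dvd.mul_left h4 _) _
        · simp only [eo, dvd_neg] at hi
          refine Dvd.dvd.mul_left ?_ _
          rcases hpI.dvd_or_dvd hi with h3 | h3
          · have h4 : p ∣ 10 := by exact_mod_cast h3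
            exact Dvd.dvd.mul_right h4 _
          · have h3 := hpI.dvd_of_dvd_pow h3
            rw [e2] at h3
            have h4 : p ∣ (Xn - 1) ^ 2 + 1 := by exact_mod_cast h3
            exact Dvd.dvd.mul_left h4 _
        · simp only [eo] at hi
          have h1 : IsUnit ((-1 : ℤ) ^ i) := (isUnit_one.neg).pow i
          exact absurd (isUnit_of_dvd_unit hi h1) hpI.not_isUnit
    have h2 : 71 * (Xn - 2) * (10 * ((Xn - 1) ^ 2 + 1)) ≤ 710 * Xn ^ 3 := by
      have h3 : (Xn - 1) ^ 2 + 1 ≤ Xn ^ 2 := by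
        obtain ⟨y, hy⟩ : ∃ y, Xn = y + 1 := ⟨Xn - 1, by omega⟩
        rw [hy]
        simp only [Nat.add_sub_cancel]
        nlinarith
      calc 71 * (Xn - 2) * (10 * ((Xn - 1) ^ 2 + 1)) ≤ 71 * Xn * (10 * Xn ^ 2) := by
            gcongr
            omega
        _ = 710 * Xn ^ 3 := by ring
    have h3 : (rd (fun i : Fin (3 + 2 * k) => eo (Xn : ℤ) i) : ℝ) ≤ 710 * (Xn : ℝ) ^ 3 := by
      exact_mod_cast h1.trans h2
    have := LR_le 3 (by norm_num : (0 : ℝ) < 710) hX0 h3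
    exact_mod_cast this
  · have h1 : Real.log ((Xn ^ 5 : ℕ) : ℝ) ≤ LH (fun i : Fin (3 + 2 * k) => eo (Xn : ℤ) i) := by
      refine LH_ge (pow_pos (by omega) 5) ⟨0, by omega⟩ ?_
      show Xn ^ 5 ≤ ((Xn : ℤ) ^ 5).natAbs
      rw [Int.natAbs_pow, Int.natAbs_natCast]
    rw [Nat.cast_pow, Real.log_pow] at h1
    exact_mod_cast h1

/-! ### length four -/

theorem fam_four (q : ℝ) (hq : q < 1) : Fam 2 (-2) q := by
  refine fam_of (u := 1) (v := 1) (C := Real.log 9) (by norm_num) (by norm_num) (fun N => ?_) q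
    (by simpa using hq)
  obtain ⟨t, ht1, ht2⟩ : ∃ t : ℕ, 1 ≤ t ∧ Real.exp (max N 0) < t :=
    ⟨⌈Real.exp (max N 0)⌉₊ + 1, by omega, by
      have h2 := Nat.le_ceil (Real.exp (max N 0))
      push_cast
      linarith⟩
  set Xn : ℕ := 3 ^ t with hXn
  have hX3 : 3 ≤ Xn := by
    calc 3 = 3 ^ 1 := by norm_num
      _ ≤ 3 ^ t := Nat.pow_le_pow_right (by norm_num) ht1
  have hXt : (t : ℝ) < Xn := by exact_mod_cast Nat.lt_pow_self (by norm_num : 1 < 3)
  have hX0 : (0 : ℝ) < Xn := lt_of_le_of_lt (Nat.cast_nonneg t) hXt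
  have hcop : IsCoprime (Xn : ℤ) (-((Xn : ℤ) + 2)) := by
    apply IsCoprime.neg_right
    have h2 : IsCoprime (Xn : ℤ) 2 := by
      rw [hXn]
      push_cast
      exact IsCoprime.pow_left (by norm_num)
    have e : (Xn : ℤ) + 2 = 2 + Xn * 1 := by ring
    rw [e]
    exact h2.add_mul_left_right 1
  refine ⟨Real.log Xn, ![(Xn : ℤ), -((Xn : ℤ) + 2)], ?_, ?_, ?_, ?_, ?_, ?_⟩
  · rw [Real.lt_log_iff_exp_lt hX0]
    calc Real.exp N ≤ Real.exp (max N 0) := Real.exp_le_exp.2 (le_max_left _ _)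
      _ < t := ht2
      _ < Xn := hXt
  · refine pc_of_lt ?_ ?_
    · intro i
      fin_cases i
      · simp; omega
      · simp; omega
    · intro i j hij
      fin_cases i <;> fin_cases j
      · exact absurd hij (lt_irrefl _)
      · exact hcop
      · exact absurd hij (by decide)
      · exact absurd hij (lt_irrefl _)
  · simp
  · intro _
    norm_num
  · have h1 : rd ![(Xn : ℤ), -((Xn : ℤ) + 2)] ≤ 3 * (Xn + 2) := by
      refine rd_le_of (by positivity) fun p hp i hi => ?_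
      have hpI : Prime (p : ℤ) := Nat.prime_iff_prime_int.mp hp
      fin_cases i
      · have h3 : (p : ℤ) ∣ (Xn : ℤ) := hi
        have h4 : p ∣ Xn := by exact_mod_cast h3
        exact Dvd.dvd.mul_right (hp.dvd_of_dvd_pow h4) _
      · have h3 : (p : ℤ) ∣ -((Xn : ℤ) + 2) := hi
        rw [dvd_neg] at h3
        have h4 : p ∣ Xn + 2 := by exact_mod_cast h3
        exact Dvd.dvd.mul_left h4 _
    have h2 : (rd ![(Xn : ℤ), -((Xn : ℤ) + 2)] : ℝ) ≤ 9 * (Xn : ℝ) ^ 1 := by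
      have : rd ![(Xn : ℤ), -((Xn : ℤ) + 2)] ≤ 9 * Xn ^ 1 := by rw [pow_one]; omega
      exact_mod_cast this
    have := LR_le 1 (by norm_num : (0 : ℝ) < 9) hX0 h2
    simpa using this
  · rw [one_mul]
    refine LH_ge (by omega) 0 ?_
    show Xn ≤ ((Xn : ℤ)).natAbs
    rw [Int.natAbs_natCast]

end Pool.Agent.H423.SN
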