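import Pool.Agent.H423.SN.Low
import Pool.Agent.H423.SN.Fams

set_option autoImplicit false

namespace Pool.Agent.H423.SN

open Finset

theorem Fam.mono {m : ℕ} {s : ℤ} {q q' : ℝ} (h : Fam m s q) (hq : q' ≤ q) : Fam m s q' := by
  intro N
  obtain ⟨F, h1, h2, h3, h4, h5⟩ := h N
  exact ⟨F, h1, h2, h3, h4, (mul_le_mul_of_nonneg_right hq (LR_nonneg F)).trans h5⟩

/-- all exponents between `1 / n` and `q` -/
theorem all_of {m : ℕ} (hm : 1 ≤ m) {s : ℤ} (hs : s ≠ 0) {q : ℝ}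
    (hfam : ∀ q' : ℝ, q' < q → Fam m s q') {lam : ℝ} (h1 : 1 / ((m : ℝ) + 2) ≤ lam)
    (h2 : lam ≤ q) : IsLim (m + 2) lam := by
  rcases le_or_gt lam (1 / 2) with h3 | h3
  · exact low hm h1 h3
  · exact high' hs hfam h3.le h2 (by linarith)

theorem odd_case {n : ℕ} (hn : Odd n) (h5 : 5 ≤ n) {lam : ℝ} (h1 : 1 / (n : ℝ) ≤ lam)
    (h2 : lam ≤ 5 / 3) : IsLim n lam := by
  obtain ⟨k, rfl⟩ : ∃ k, n = (3 + 2 * k) + 2 := by
    obtain ⟨r, hr⟩ := hn
    exact ⟨r - 2, by omega⟩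
  refine all_of (by omega) (by norm_num) (fam_odd k) ?_ h2
  have : (((3 + 2 * k + 2 : ℕ)) : ℝ) = ((3 + 2 * k : ℕ) : ℝ) + 2 := by push_cast; ring
  rwa [this] at h1

theorem even_case {n : ℕ} (hn : Even n) (h6 : 6 ≤ n) {lam : ℝ} (h1 : 1 / (n : ℝ) ≤ lam)
    (h2 : lam ≤ 7 / 5) : IsLim n lam := by
  obtain ⟨k, rfl⟩ : ∃ k, n = (4 + 2 * k) + 2 := by
    obtain ⟨r, hr⟩ := hn
    exact ⟨r - 3, by omega⟩
  refine all_of (by omega) (by unfold Pool.Agent.TH96.NC.cA; norm_num) (fam_even k) ?_ h2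
  have : (((4 + 2 * k + 2 : ℕ)) : ℝ) = ((4 + 2 * k : ℕ) : ℝ) + 2 := by push_cast; ring
  rwa [this] at h1

theorem four_case {lam : ℝ} (h1 : 1 / 4 ≤ lam) (h2 : lam ≤ 1) : IsLim 4 lam := by
  refine all_of (m := 2) (by omega) (s := -2) (by norm_num) fam_four ?_ h2
  norm_num
  linarith

theorem low_case {n : ℕ} (h3 : 3 ≤ n) {lam : ℝ} (h1 : 1 / (n : ℝ) ≤ lam)
    (h2 : lam ≤ 1 / 2) : IsLim n lam := by
  obtain ⟨m, rfl⟩ : ∃ m, n = m + 2 := ⟨n - 2, by omega⟩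
  refine low (by omega) ?_ h2
  push_cast at h1
  exact h1

theorem unit_cop {u v : ℤ} (h : IsUnit u) : IsCoprime u v := by
  obtain ⟨w, rfl⟩ := h
  exact ⟨((w⁻¹ : ℤˣ) : ℤ), 0, by simp⟩

theorem rd_one_ext {m : ℕ} {F : Fin m → ℤ} {u v : ℤ} (hu : IsUnit u) (hv : IsUnit v) :
    rd (ext F u v) = rd F := by
  have e : ∀ w : ℤ, IsUnit w → rn w.natAbs = 1 := by
    intro w hw
    rw [Int.natAbs_of_isUnit hw]
    exact rn_sqf squarefree_one
  rw [rd_ext (unit_cop hu) (unit_cop hu) (unit_cop hv), e u hu, e v hv]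
  ring

theorem PC_one_ext {m : ℕ} {F : Fin m → ℤ} (hF : PC F) {u v : ℤ} (hu : IsUnit u)
    (hv : IsUnit v) : PC (ext F u v) :=
  PC_ext hF hu.ne_zero hv.ne_zero (unit_cop hu) (fun _ => unit_cop hu)
    fun _ => unit_cop hv

theorem le_sz_ext {m : ℕ} (F : Fin m → ℤ) (u v : ℤ) : sz F ≤ sz (ext F u v) := by
  rw [sz_ext]
  exact (le_max_right _ _).trans (le_max_right _ _)

/-- large exponents for `n` -/
def Large (n : ℕ) (q : ℝ) : Prop :=
  ∀ N : ℝ, ∃ x : Fin n → ℤ, Adm x ∧ N < sz x ∧ (rd x : ℝ) ^ q ≤ sz x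

theorem fam_pad {n : ℕ} {q : ℝ} (h : Large n q) : Fam (n + 2) 2 q := by
  intro N
  obtain ⟨x, hx, h1, h2⟩ := h (Real.exp N)
  have h0 : (0 : ℝ) < sz x := (Real.exp_pos _).trans h1
  have hr : (0 : ℝ) < rd x := by exact_mod_cast rd_pos x
  have h3 : N < LH x := by rw [LH, Real.lt_log_iff_exp_lt h0]; exact h1
  have h4 : q * LR x ≤ LH x := by
    have := Real.log_le_log (by positivity) h2
    rwa [Real.log_rpow hr] at this
  have h5 : LH x ≤ LH (ext x 1 1) :=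
    Real.log_le_log h0 (by exact_mod_cast le_sz_ext x 1 1)
  have h6 : LR (ext x 1 1) = LR x := by
    unfold LR; rw [rd_one_ext isUnit_one isUnit_one]
  refine ⟨ext x 1 1, PC_one_ext hx.pc isUnit_one isUnit_one, ?_, fun _ => dvd_refl 2, by linarith, ?_⟩
  · rw [sum_ext, hx.2.2]; norm_num
  · rw [h6]; linarith

theorem down {n : ℕ} {q : ℝ} (h : Large n q) {lam : ℝ} (h1 : 1 / ((n : ℝ) + 4) ≤ lam)
    (h2 : lam ≤ q) : IsLim (n + 4) lam := by
  have h3 : IsLim (n + 2 + 2) lam := by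
    refine all_of (m := n + 2) (by omega) (s := 2) (by norm_num)
      (fun q' hq' => (fam_pad h).mono hq'.le) ?_ h2
    push_cast
    have : (n : ℝ) + 2 + 2 = n + 4 := by ring
    rwa [this]
  exact h3

/-- Q1 for a fixed `n` -/
def Holds (n : ℕ) : Prop :=
  ∃ M : ℝ, ∀ x : Fin n → ℤ, Adm x → ∀ j, (|x j| : ℝ) ≤ (rd x : ℝ) ^ M

theorem holds_down {n : ℕ} (h : Holds (n + 2)) : Holds n := by
  obtain ⟨M, hM⟩ := h
  refine ⟨M, fun x hx j => ?_⟩
  have hm1 : IsUnit (-1 : ℤ) := isUnit_one.neg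
  have h1 : Adm (ext x 1 (-1)) := by
    refine Adm_of_PC (PC_one_ext hx.pc isUnit_one hm1) ?_
    rw [sum_ext, hx.2.2]; norm_num
  have h2 := hM _ h1 j.succ.succ
  rw [ext_succ, rd_one_ext isUnit_one hm1] at h2
  exact h2

theorem holds_down' {n : ℕ} (j : ℕ) (h : Holds (n + 2 * j)) : Holds n := by
  induction j with
  | zero => exact h
  | succ j ih =>
    refine ih (holds_down ?_)
    have e : n + 2 * (j + 1) = n + 2 * j + 2 := by ring
    rwa [e] at h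

theorem abs_cast (z : ℤ) : (|z| : ℝ) = (z.natAbs : ℝ) := by
  rw [Nat.cast_natAbs, Int.cast_abs]

theorem large_of_fails {n : ℕ} (h : ¬ Holds n) (q : ℝ) : Large n q := by
  intro N
  unfold Holds at h
  push Not at h
  obtain ⟨x, hx, j, hj⟩ := h (max (max q 0) (Real.log (max N 1) / Real.log 2))
  set M := max (max q 0) (Real.log (max N 1) / Real.log 2) with hM
  have hM0 : 0 ≤ M := (le_max_right _ _).trans (le_max_left _ _)
  have hMq : q ≤ M := (le_max_left _ _).trans (le_max_left _ _)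
  have hr1 : (1 : ℝ) ≤ rd x := by exact_mod_cast rd_pos x
  rw [abs_cast] at hj
  have hj1 : (1 : ℝ) < (x j).natAbs := (Real.one_le_rpow hr1 hM0).trans_lt hj
  have hj2 : (x j).natAbs ≠ 1 := by
    intro h1
    rw [h1] at hj1
    norm_num at hj1
  have hr2 : 2 ≤ rd x := by
    obtain ⟨p, hp, hpd⟩ := Nat.exists_prime_and_dvd hj2
    have h1 : p ∈ (∏ i, x i).natAbs.primeFactors := by
      rw [Nat.mem_primeFactors]
      refine ⟨hp, ?_, Int.natAbs_ne_zero.2 (prod_ne hx.pc)⟩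
      have h2 : x j ∣ ∏ i, x i := dvd_prod_of_mem _ (mem_univ j)
      exact hpd.trans (Int.natAbs_dvd_natAbs.2 h2)
    have h2 : p ∣ rd x := dvd_prod_of_mem _ h1
    exact hp.two_le.trans (Nat.le_of_dvd (rd_pos x) h2)
  have hr2' : (2 : ℝ) ≤ rd x := by exact_mod_cast hr2
  have hsz : ((x j).natAbs : ℝ) ≤ sz x := by exact_mod_cast le_sz x j
  refine ⟨x, hx, ?_, ?_⟩
  · have h1 : (max N 1 : ℝ) ≤ (rd x : ℝ) ^ M := by
      have h2 : (max N 1 : ℝ) = (2 : ℝ) ^ (Real.log (max N 1) / Real.log 2) := by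
        have h0 : (0 : ℝ) < max N 1 := lt_of_lt_of_le one_pos (le_max_right _ _)
        rw [Real.rpow_def_of_pos (by norm_num : (0 : ℝ) < 2)]
        rw [mul_div_cancel₀ _ (Real.log_pos (by norm_num : (1 : ℝ) < 2)).ne', Real.exp_log h0]
      rw [h2]
      calc (2 : ℝ) ^ (Real.log (max N 1) / Real.log 2) ≤ (2 : ℝ) ^ M :=
            Real.rpow_le_rpow_of_exponent_le (by norm_num) (le_max_right _ _)
        _ ≤ (rd x : ℝ) ^ M := Real.rpow_le_rpow (by norm_num) hr2' hM0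
    have h2 := le_max_left N 1
    linarith
  · calc (rd x : ℝ) ^ q ≤ (rd x : ℝ) ^ M := Real.rpow_le_rpow_of_exponent_le hr1 hMq
      _ ≤ (x j).natAbs := hj.le
      _ ≤ sz x := hsz

theorem fails {n : ℕ} (h : ¬ Holds n) (j : ℕ) {lam : ℝ}
    (h1 : 1 / ((n + 4 + 2 * j : ℕ) : ℝ) ≤ lam) : IsLim (n + 4 + 2 * j) lam := by
  have h2 : ¬ Holds (n + 2 * j) := fun h3 => h (holds_down' j h3)
  have h3 : IsLim (n + 2 * j + 4) lam := by
    refine down (large_of_fails h2 lam) ?_ le_rfl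
    have : ((n + 2 * j : ℕ) : ℝ) + 4 = ((n + 4 + 2 * j : ℕ) : ℝ) := by push_cast; ring
    rwa [this]
  have e : n + 2 * j + 4 = n + 4 + 2 * j := by ring
  rwa [e] at h3

theorem two_le_rd {n : ℕ} {x : Fin n → ℤ} (hx : Adm x) (h : 1 < sz x) : 2 ≤ rd x := by
  by_contra hcon
  have h1 : ∀ i, (x i).natAbs ≤ 1 := by
    intro i
    by_contra h2
    have hj2 : (x i).natAbs ≠ 1 := by omega
    obtain ⟨p, hp, hpd⟩ := Nat.exists_prime_and_dvd hj2
    have h1 : p ∈ (∏ i, x i).natAbs.primeFactors := by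
      rw [Nat.mem_primeFactors]
      refine ⟨hp, ?_, Int.natAbs_ne_zero.2 (prod_ne hx.pc)⟩
      have h2 : x i ∣ ∏ i, x i := dvd_prod_of_mem _ (mem_univ i)
      exact hpd.trans (Int.natAbs_dvd_natAbs.2 h2)
    have h2 : p ∣ rd x := dvd_prod_of_mem _ h1
    have := hp.two_le.trans (Nat.le_of_dvd (rd_pos x) h2)
    omega
  have := sz_le x 1 h1
  omega

theorem bounded {n : ℕ} (h : Holds n) : ∃ lam : ℝ, 1 / (n : ℝ) ≤ lam ∧ ¬ IsLim n lam := by
  obtain ⟨M, hM⟩ := h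
  refine ⟨max (max M 0 + 1) (1 / (n : ℝ)), le_max_right _ _, fun hl => ?_⟩
  set l := max (max M 0 + 1) (1 / (n : ℝ)) with hldef
  obtain ⟨x, hx, h1, h2⟩ := hl 1 one_pos 1
  have h1' : 1 < sz x := by exact_mod_cast h1
  have hr := two_le_rd hx h1'
  have hr' : (2 : ℝ) ≤ rd x := by exact_mod_cast hr
  have hLR : 0 < LR x := Real.log_pos (by linarith)
  have hsz0 : (0 : ℝ) < sz x := by linarith
  have h3 : (sz x : ℝ) ≤ (rd x : ℝ) ^ M := by
    have hne : (univ : Finset (Fin n)).Nonempty := by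
      by_contra hcon
      rw [not_nonempty_iff_eq_empty] at hcon
      unfold sz at h1'
      rw [hcon] at h1'
      simp at h1'
    obtain ⟨i, -, hi⟩ := Finset.exists_mem_eq_sup univ hne fun i => (x i).natAbs
    have hi' : sz x = (x i).natAbs := hi
    have := hM x hx i
    rw [abs_cast] at this
    rw [hi']
    exact this
  have h4 : LH x ≤ M * LR x := by
    have := Real.log_le_log hsz0 h3
    rwa [Real.log_rpow (by linarith)] at this
  have h5 : LH x / LR x ≤ M := by rwa [div_le_iff₀ hLR]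
  have h6 := (abs_lt.1 h2).1
  have h7 : max M 0 + 1 ≤ l := le_max_left _ _
  have h8 := le_max_left M 0
  linarith

theorem lower {n : ℕ} (hn : 1 ≤ n) {lam : ℝ} (h : IsLim n lam) : 1 / (n : ℝ) ≤ lam := by
  have hn0 : (0 : ℝ) < n := by exact_mod_cast hn
  by_contra hcon
  rw [not_le] at hcon
  obtain ⟨x, hx, h1, h2⟩ := h (1 / n - lam) (by linarith) 1
  have h1' : 1 < sz x := by exact_mod_cast h1
  have hr := two_le_rd hx h1'
  have hr' : (2 : ℝ) ≤ rd x := by exact_mod_cast hr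
  have hLR : 0 < LR x := Real.log_pos (by linarith)
  have h3 : rd x ≤ sz x ^ n :=
    (Nat.le_of_dvd (Int.natAbs_pos.2 (prod_ne hx.pc)) (Nat.prod_primeFactors_dvd _)).trans
      (prod_le x)
  have h4 : LR x ≤ n * LH x := by
    unfold LR LH
    rw [← Real.log_pow]
    apply Real.log_le_log (by linarith)
    exact_mod_cast h3
  have h5 : 1 / (n : ℝ) ≤ LH x / LR x := by
    rw [div_le_div_iff₀ hn0 hLR]; linarith
  have h6 := (abs_lt.1 h2).2
  linarith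

theorem iff_spectrum : (∀ n : ℕ, 3 ≤ n → Holds n) ↔ ∀ N : ℕ,
    (∃ n, N ≤ n ∧ Odd n ∧ ∃ lam : ℝ, 1 / (n : ℝ) ≤ lam ∧ ¬ IsLim n lam) ∧
    ∃ n, N ≤ n ∧ Even n ∧ ∃ lam : ℝ, 1 / (n : ℝ) ≤ lam ∧ ¬ IsLim n lam := by
  constructor
  · intro h N
    refine ⟨⟨2 * (N + 3) + 1, by omega, ⟨N + 3, rfl⟩, bounded (h _ (by omega))⟩,
      ⟨2 * (N + 3), by omega, ⟨N + 3, by ring⟩, bounded (h _ (by omega))⟩⟩
  · intro h n hn
    by_contra hcon
    have key : ∀ n', n + 4 ≤ n' → (Odd n' ↔ Odd n) → ∀ lam : ℝ, 1 / (n' : ℝ) ≤ lam → IsLim n' lam := by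
      intro n' h1 h2 lam h3
      obtain ⟨j, hj⟩ : ∃ j, n' = n + 4 + 2 * j := by
        refine ⟨(n' - (n + 4)) / 2, ?_⟩
        rcases Nat.even_or_odd n with h4 | h4
        · have h5 : ¬ Odd n' := by rw [h2]; exact Nat.not_odd_iff_even.2 h4
          rw [Nat.not_odd_iff_even] at h5
          obtain ⟨a, ha⟩ := h4
          obtain ⟨b, hb⟩ := h5
          omega
        · obtain ⟨b, hb⟩ := h2.2 h4
          obtain ⟨a, ha⟩ := h4
          omega
      subst hj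
      exact fails hcon j h3
    obtain ⟨⟨n1, a1, a2, l1, a3, a4⟩, ⟨n2, b1, b2, l2, b3, b4⟩⟩ := h (n + 4)
    rcases Nat.even_or_odd n with h4 | h4
    · refine b4 (key n2 b1 ?_ l2 b3)
      rw [← Nat.not_even_iff_odd, ← Nat.not_even_iff_odd]
      simp [h4, b2]
    · refine a4 (key n1 a1 ?_ l1 a3)
      simp [h4, a2]

end Pool.Agent.H423.SN
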