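import Pool.Agent.H423.SN.An

set_option autoImplicit false

namespace Pool.Agent.H423.SN

open Finset

/-- tuples of primes of about the same size -/
theorem primes_tuple (B : ℕ) (hB : 2 ≤ B) (m : ℕ) : ∃ F : Fin m → ℤ, PC F ∧
    (∀ i, ∃ p : ℕ, p.Prime ∧ F i = p ∧ B < p ∧ p ≤ 2 ^ m * B) ∧ ((rd F : ℕ) : ℤ) = ∏ i, F i := by
  induction m with
  | zero =>
    refine ⟨fun i => i.elim0, ⟨fun i => i.elim0, fun i => i.elim0⟩, fun i => i.elim0, ?_⟩
    simp [rd]
  | succ m ih =>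
    obtain ⟨F, h1, h2, h3⟩ := ih
    have hpos : 2 ^ m * B ≠ 0 := by positivity
    obtain ⟨p, hp, hp1, hp2⟩ := Nat.exists_prime_lt_and_le_two_mul (2 ^ m * B) hpos
    have hcop : ∀ i, IsCoprime (p : ℤ) (F i) := by
      intro i
      obtain ⟨q, hq, e, hq1, hq2⟩ := h2 i
      rw [e, Nat.isCoprime_iff_coprime, Nat.coprime_primes hp hq]
      omega
    have hcopP : IsCoprime (p : ℤ) (∏ i, F i) := IsCoprime.prod_right fun i _ => hcop i
    refine ⟨Fin.cons (p : ℤ) F, ⟨?_, ?_⟩, ?_, ?_⟩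
    · refine Fin.cases ?_ h1.1
      rw [Fin.cons_zero]
      exact_mod_cast hp.ne_zero
    · refine Fin.cases ?_ fun i => ?_
      · refine Fin.cases (fun h => absurd rfl h) fun i _ => ?_
        exact hcop i
      · refine Fin.cases (fun _ => (hcop i).symm) fun j hj => ?_
        exact h1.2 i j fun h => hj (by rw [h])
    · have hB2 : B ≤ 2 ^ m * B := Nat.le_mul_of_pos_left _ (by positivity)
      have e2 : 2 ^ (m + 1) * B = 2 * (2 ^ m * B) := by ring
      refine Fin.cases ⟨p, hp, rfl, by omega, by omega⟩ fun i => ?_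
      obtain ⟨q, hq, e, hq1, hq2⟩ := h2 i
      exact ⟨q, hq, e, hq1, by omega⟩
    · have e1 : ∏ i, (Fin.cons (p : ℤ) F : Fin (m + 1) → ℤ) i = p * ∏ i, F i := by
        rw [Fin.prod_univ_succ]; rfl
      rw [rd_eq, e1, Int.natAbs_mul, rn_mul]
      · rw [Int.natAbs_natCast, rn_sqf hp.squarefree, ← rd_eq, Nat.cast_mul, h3]
      · exact Int.isCoprime_iff_gcd_eq_one.1 hcopP

theorem low {m : ℕ} (hm : 1 ≤ m) {lam : ℝ} (h1 : 1 / ((m : ℝ) + 2) ≤ lam) (h2 : lam ≤ 1 / 2) :
    IsLim (m + 2) lam := by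
  intro ε hε N
  have hm0 : (1 : ℝ) ≤ m := by exact_mod_cast hm
  have hlam : 0 < lam := lt_of_lt_of_le (by positivity) h1
  set θ : ℝ := (1 / lam - 2) / m with hθ
  have hθ0 : 0 ≤ θ := by
    have : (2 : ℝ) ≤ 1 / lam := by rw [le_div_iff₀ hlam]; linarith
    rw [hθ]
    apply div_nonneg <;> linarith
  have hθ1 : θ ≤ 1 := by
    have : 1 / lam ≤ (m : ℝ) + 2 := by
      rw [div_le_iff₀ hlam]
      rw [div_le_iff₀ (by linarith)] at h1
      linarith
    rw [hθ, div_le_iff₀ (by linarith)]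
    linarith
  have hθm : (m : ℝ) * θ = 1 / lam - 2 := by rw [hθ]; field_simp
  set K : ℕ := 3 * m * 2 ^ m + 2 * m with hK
  set G : ℕ := K + 3 * 2 ^ m + 3 with hG
  set C : ℝ := 4 + 2 * Real.log G + m * (2 + m) with hC
  have hG1 : (1 : ℝ) ≤ G := by
    have : 1 ≤ G := by omega
    exact_mod_cast this
  have hlG : 0 ≤ Real.log G := Real.log_nonneg hG1
  have hC0 : 0 ≤ C := by rw [hC]; positivity
  obtain ⟨H, hH⟩ := ratio hlam hC0 hε
  obtain ⟨A₀, hA₀⟩ := step K
  obtain ⟨A, hA⟩ : ∃ A : ℕ, max (max H N) 0 ≤ Real.log A ∧ max A₀ G ≤ A := by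
    refine ⟨max ⌈Real.exp (max (max H N) 0)⌉₊ (max A₀ G), ?_, le_max_right _ _⟩
    have h3 : Real.exp (max (max H N) 0) ≤ ((max ⌈Real.exp (max (max H N) 0)⌉₊ (max A₀ G) : ℕ) : ℝ) :=
      (Nat.le_ceil _).trans (by exact_mod_cast le_max_left _ _)
    rwa [Real.le_log_iff_exp_le ((Real.exp_pos _).trans_le h3)]
  obtain ⟨hA1, hA2⟩ := hA
  set L := Real.log A with hL
  have hHL : H ≤ L := ((le_max_left _ _).trans (le_max_left _ _)).trans hA1
  have hNL : N ≤ L := ((le_max_right _ _).trans (le_max_left _ _)).trans hA1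
  have hL0 : 0 ≤ L := (le_max_right _ _).trans hA1
  have hAA : A₀ ≤ A := (le_max_left _ _).trans hA2
  have hGA : G ≤ A := (le_max_right _ _).trans hA2
  have hAn : 3 ≤ A := by omega
  have hA0 : (0 : ℝ) < A := by
    have : 0 < A := by omega
    exact_mod_cast this
  have hAexp : Real.exp L = A := Real.exp_log hA0
  set X : ℝ := Real.exp (θ * L) with hX
  have hX1 : 1 ≤ X := Real.one_le_exp (mul_nonneg hθ0 hL0)
  have hXA : X ≤ A := by
    rw [← hAexp, hX]
    apply Real.exp_le_exp.2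
    nlinarith
  set B : ℕ := ⌈X⌉₊ + 1 with hB
  have hB1 : X ≤ B := by
    rw [hB]; push_cast
    have := Nat.le_ceil X
    linarith
  have hB3 : (B : ℝ) ≤ 3 * X := by
    rw [hB]; push_cast
    have := Nat.ceil_lt_add_one (by linarith : (0 : ℝ) ≤ X)
    linarith
  have hB2 : 2 ≤ B := by
    have : 1 ≤ ⌈X⌉₊ := Nat.one_le_ceil_iff.2 (by linarith)
    omega
  have hBA : B ≤ 3 * A := by
    have : (B : ℝ) ≤ 3 * A := by linarith
    exact_mod_cast this
  obtain ⟨F, hF, hFp, hFr⟩ := primes_tuple B hB2 m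
  have hle : ∀ i, F i ≤ 2 ^ m * B := by
    intro i
    obtain ⟨p, hp, e, hp1, hp2⟩ := hFp i
    rw [e]
    exact_mod_cast hp2
  have hge : ∀ i, (B : ℤ) ≤ F i := by
    intro i
    obtain ⟨p, hp, e, hp1, hp2⟩ := hFp i
    rw [e]
    exact_mod_cast hp1.le
  have hBpos : (0 : ℤ) < B := by exact_mod_cast (by omega : 0 < B)
  have hpos : ∀ i, 0 < F i := fun i => hBpos.trans_le (hge i)
  have hs0 : 0 < ∑ i, F i := by
    have : (univ : Finset (Fin m)).Nonempty := ⟨⟨0, by omega⟩, mem_univ _⟩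
    exact sum_pos (fun i _ => hpos i) this
  have hs1 : ∑ i, F i ≤ m * (2 ^ m * B) := by
    have := sum_le_card_nsmul (univ : Finset (Fin m)) F (2 ^ m * B) fun i _ => hle i
    rwa [card_univ, Fintype.card_fin, nsmul_eq_mul] at this
  obtain ⟨sn, hsn⟩ : ∃ sn : ℕ, ∑ i, F i = sn := ⟨(∑ i, F i).toNat, by omega⟩
  have hsn1 : sn ≤ m * (2 ^ m * B) := by
    rw [hsn] at hs1; exact_mod_cast hs1
  have hsnK : sn ≤ K * A := by
    calc sn ≤ m * (2 ^ m * B) := hsn1
      _ ≤ m * (2 ^ m * (3 * A)) := by gcongr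
      _ = (3 * m * 2 ^ m) * A := by ring
      _ ≤ K * A := Nat.mul_le_mul_right _ (by omega)
  have hszF : sz F ≤ 2 ^ m * B := sz_le _ _ fun i => by
    have h5 : ((F i).natAbs : ℤ) ≤ ((2 ^ m * B : ℕ) : ℤ) := by
      rw [Int.natAbs_of_nonneg (hpos i).le]
      exact_mod_cast hle i
    exact_mod_cast h5
  have hszA : sz F ≤ (3 * 2 ^ m) * A := by
    calc sz F ≤ 2 ^ m * B := hszF
      _ ≤ 2 ^ m * (3 * A) := by gcongr
      _ = (3 * 2 ^ m) * A := by ring
  have hPK : (∏ i, F i).natAbs ≤ A ^ K := by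
    calc (∏ i, F i).natAbs ≤ sz F ^ m := prod_le F
      _ ≤ ((3 * 2 ^ m) * A) ^ m := Nat.pow_le_pow_left hszA m
      _ ≤ (A * A) ^ m := Nat.pow_le_pow_left (Nat.mul_le_mul_right _ (by omega)) m
      _ = A ^ (2 * m) := by rw [← pow_two, ← pow_mul]
      _ ≤ A ^ K := Nat.pow_le_pow_right (by omega) (by omega)
  have hodd : ¬ (2 : ℤ) ∣ ∏ i, F i := by
    intro hd
    obtain ⟨i, -, hi⟩ := Int.prime_two.exists_mem_finset_dvd hd
    obtain ⟨p, hp, e, hp1, hp2⟩ := hFp i
    rw [e] at hi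
    have h5 : 2 ∣ p := by exact_mod_cast hi
    have := (Nat.prime_dvd_prime_iff_eq Nat.prime_two hp).1 h5
    omega
  obtain ⟨x, a, hx, ha1, ha2, hrd, hsz⟩ := hA₀ A hAA m F hF hs0.ne' (by rw [hsn]; simpa using hsnK)
    hPK (fun h => absurd h hodd)
  have hbe : ((a : ℤ) + ∑ i, F i).natAbs = a + sn := by
    rw [hsn]; omega
  rw [hbe] at hrd hsz
  have ha0 : (0 : ℝ) < a := by
    have : 0 < a := by omega
    exact_mod_cast this
  have hb0 : (0 : ℝ) < ((a + sn : ℕ) : ℝ) := by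
    have : 0 < a + sn := by omega
    exact_mod_cast this
  have hlG' : ∀ t : ℕ, 0 < t → t ≤ G * A → Real.log t ≤ L + Real.log G := by
    intro t ht0 ht
    have h5 : (t : ℝ) ≤ G * A := by exact_mod_cast ht
    have h6 := Real.log_le_log (by exact_mod_cast ht0) h5
    rw [Real.log_mul (by linarith) hA0.ne'] at h6
    linarith
  have hlA' : ∀ t : ℕ, A ≤ t → L ≤ Real.log t := by
    intro t ht
    exact Real.log_le_log hA0 (by exact_mod_cast ht)
  have hK3 : K * A + 3 * A ≤ G * A := by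
    have : K + 3 ≤ G := by omega
    calc K * A + 3 * A = (K + 3) * A := by ring
      _ ≤ G * A := Nat.mul_le_mul_right _ this
  have h32 : (3 * 2 ^ m) * A ≤ G * A := Nat.mul_le_mul_right _ (by omega)
  have hszx1 : A ≤ sz x := by
    rw [hsz]; exact ha1.le.trans (le_max_left _ _)
  have hszx2 : sz x ≤ G * A := by
    rw [hsz]
    exact max_le (by omega) (max_le (by omega) (by omega))
  have hLH1 : L ≤ LH x := hlA' _ hszx1
  have hLH2 : LH x ≤ L + Real.log G := hlG' _ (by omega) hszx2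
  have hrF0 : (0 : ℝ) < rd F := by exact_mod_cast rd_pos F
  have hLR : LR x = Real.log a + Real.log ((a + sn : ℕ) : ℝ) + LR F := by
    unfold LR
    rw [hrd, Nat.cast_mul, Nat.cast_mul, Real.log_mul (by positivity) hrF0.ne',
      Real.log_mul ha0.ne' hb0.ne']
  have hF1 : ((B : ℕ) : ℤ) ^ m ≤ (rd F : ℤ) := by
    rw [hFr]
    have := prod_le_prod (s := (univ : Finset (Fin m))) (f := fun _ => (B : ℤ)) (g := F)
      (fun i _ => hBpos.le) (fun i _ => hge i)
    simpa using this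
  have hF2 : (rd F : ℤ) ≤ (2 ^ m * B : ℤ) ^ m := by
    rw [hFr]
    have := prod_le_prod (s := (univ : Finset (Fin m))) (f := F) (g := fun _ => (2 ^ m * B : ℤ))
      (fun i _ => (hpos i).le) (fun i _ => hle i)
    simpa using this
  have hBr0 : (0 : ℝ) < B := by linarith
  have hlB1 : θ * L ≤ Real.log B := by
    rw [Real.le_log_iff_exp_le hBr0]; exact hB1
  have hl3 : Real.log 3 ≤ 2 := by
    have h5 : Real.log 3 ≤ 3 - 1 := Real.log_le_sub_one_of_pos (by norm_num)
    linarith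
  have hl2 : Real.log 2 ≤ 1 := by have := Real.log_two_lt_d9; linarith
  have hlB2 : Real.log B ≤ θ * L + 2 := by
    have := Real.log_le_log hBr0 hB3
    rw [Real.log_mul (by norm_num) (Real.exp_pos _).ne', Real.log_exp] at this
    linarith
  have hLF1 : m * (θ * L) ≤ LR F := by
    have h5 : ((B : ℕ) : ℝ) ^ m ≤ (rd F : ℝ) := by exact_mod_cast hF1
    have h6 := Real.log_le_log (by positivity) h5
    rw [Real.log_pow] at h6
    unfold LR
    have := mul_le_mul_of_nonneg_left hlB1 (by linarith : (0 : ℝ) ≤ m)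
    linarith
  have hLF2 : LR F ≤ m * (θ * L) + m * (2 + m) := by
    have h5 : (rd F : ℝ) ≤ (2 ^ m * B : ℝ) ^ m := by exact_mod_cast hF2
    have h6 := Real.log_le_log hrF0 h5
    rw [Real.log_pow, Real.log_mul (by positivity) hBr0.ne', Real.log_pow] at h6
    unfold LR
    have h7 : (m : ℝ) * Real.log 2 + Real.log B ≤ m + (θ * L + 2) := by
      have := mul_le_mul_of_nonneg_left hl2 (by linarith : (0 : ℝ) ≤ m)
      linarith
    have h8 := mul_le_mul_of_nonneg_left h7 (by linarith : (0 : ℝ) ≤ m)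
    refine h6.trans (h8.trans (le_of_eq (by ring)))
  have hla1 := hlA' a ha1.le
  have hla2 := hlG' a (by omega) (by omega)
  have hlb1 := hlA' (a + sn) (by omega)
  have hlb2 := hlG' (a + sn) (by omega) (by omega)
  refine ⟨x, hx, ?_, ?_⟩
  · have h5 : LH x < sz x := by
      have h6 : (0 : ℝ) < sz x := by
        have : 0 < sz x := by omega
        exact_mod_cast this
      have := Real.add_one_le_exp (LH x)
      rw [LH, Real.exp_log h6] at this
      unfold LH
      linarith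
    linarith
  · have e : L / lam = 2 * L + m * (θ * L) := by
      have : (m : ℝ) * (θ * L) = (m * θ) * L := by ring
      rw [this, hθm]
      ring
    refine hH L hHL _ _ ?_ ?_
    · rw [abs_le, hC]
      have : (0 : ℝ) ≤ m * (2 + m) := by positivity
      constructor <;> linarith
    · rw [hLR, abs_le, hC, e]
      have : (0 : ℝ) ≤ m * (2 + m) := by positivity
      constructor <;> linarith

end Pool.Agent.H423.SN
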