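import Pool.Agent.H423.SN.Fin

set_option autoImplicit false

namespace Pool.Agent.H423.SN

open Finset

theorem all_odd {n : ℕ} (hn : Even n) {x : Fin n → ℤ} (hx : Adm x) (i : Fin n) :
    ¬ (2 : ℤ) ∣ x i := by
  intro hi
  have h1 : ∀ k, k ≠ i → ((x k : ℤ) : ZMod 2) = 1 := by
    intro k hk
    have h2 : ¬ (2 : ℤ) ∣ x k := by
      intro h3
      have h4 := (Int.isCoprime_iff_gcd_eq_one.2 (hx.2.1 k i hk)).isUnit_of_dvd' h3 hi
      have h5 : ¬ IsUnit (2 : ℤ) := Int.prime_two.not_isUnit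
      exact h5 h4
    have h3 : ((x k : ℤ) : ZMod 2) ≠ 0 := by
      intro h4
      rw [ZMod.intCast_zmod_eq_zero_iff_dvd] at h4
      exact h2 (by exact_mod_cast h4)
    have h4 : ∀ z : ZMod 2, z ≠ 0 → z = 1 := by decide
    exact h4 _ h3
  have h2 : ((x i : ℤ) : ZMod 2) = 0 := by
    rw [ZMod.intCast_zmod_eq_zero_iff_dvd]
    exact_mod_cast hi
  have h3 : ∑ k, ((x k : ℤ) : ZMod 2) = 0 := by
    have := congrArg (Int.cast : ℤ → ZMod 2) hx.2.2
    rw [Int.cast_sum] at this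
    simpa using this
  rw [← add_sum_erase univ (fun k => ((x k : ℤ) : ZMod 2)) (mem_univ i)] at h3
  simp only [h2, zero_add] at h3
  rw [sum_congr rfl (fun k hk => h1 k (mem_erase.1 hk).1), sum_const, card_erase_of_mem (mem_univ i),
    card_univ, Fintype.card_fin, nsmul_eq_mul, mul_one] at h3
  have h4 : 0 < n := i.pos
  obtain ⟨r, hr⟩ := hn
  have h5 : n - 1 = 2 * (r - 1) + 1 := by omega
  rw [h5] at h3
  push_cast at h3
  have h6 : (2 : ZMod 2) = 0 := by decide
  rw [h6] at h3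
  simp at h3

theorem fam_pad1 {n : ℕ} (hn : Even n) {q : ℝ} (h : Large n q) : Fam (n + 1) 1 q := by
  intro N
  obtain ⟨x, hx, h1, h2⟩ := h (Real.exp N)
  have h0 : (0 : ℝ) < sz x := (Real.exp_pos _).trans h1
  have hr : (0 : ℝ) < rd x := by exact_mod_cast rd_pos x
  have h3 : N < LH x := by rw [LH, Real.lt_log_iff_exp_lt h0]; exact h1
  have h4 : q * LR x ≤ LH x := by
    have := Real.log_le_log (by positivity) h2
    rwa [Real.log_rpow hr] at this
  set F : Fin (n + 1) → ℤ := Fin.cons 1 x with hF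
  have hprod : ∏ i, F i = ∏ i, x i := by
    rw [Fin.prod_univ_succ]
    exact one_mul _
  have hsz : sz x ≤ sz F := sz_le _ _ fun i => le_sz F i.succ
  have h5 : LH x ≤ LH F := Real.log_le_log h0 (by exact_mod_cast hsz)
  have h6 : LR F = LR x := by
    unfold LR rd
    rw [hprod]
  refine ⟨F, ⟨?_, ?_⟩, ?_, ?_, by linarith, ?_⟩
  · exact Fin.cases one_ne_zero hx.1
  · refine Fin.cases ?_ fun i => ?_
    · exact Fin.cases (fun h => absurd rfl h) fun i _ => isCoprime_one_left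
    · refine Fin.cases (fun _ => isCoprime_one_right) fun j hj => ?_
      exact hx.pc.2 i j fun h => hj (by rw [h])
  · rw [Fin.sum_univ_succ]
    have : (1 : ℤ) + ∑ i, x i = 1 := by rw [hx.2.2, add_zero]
    exact this
  · intro hd
    rw [hprod] at hd
    obtain ⟨i, -, hi⟩ := Int.prime_two.exists_mem_finset_dvd hd
    exact absurd hi (all_odd hn hx i)
  · rw [h6]; linarith

theorem down1 {n : ℕ} (hn : Even n) {q : ℝ} (h : Large n q) {lam : ℝ}
    (h1 : 1 / ((n : ℝ) + 3) ≤ lam) (h2 : lam ≤ q) : IsLim (n + 3) lam := by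
  have h3 : IsLim (n + 1 + 2) lam := by
    refine all_of (m := n + 1) (by omega) (s := 1) (by norm_num)
      (fun q' hq' => (fam_pad1 hn h).mono hq'.le) ?_ h2
    push_cast
    have : (n : ℝ) + 1 + 2 = n + 3 := by ring
    rwa [this]
  exact h3

theorem down' {n n' : ℕ} {q : ℝ} (h : Large n q) (hn' : n' = n + 4 ∨ Even n ∧ n' = n + 3)
    {lam : ℝ} (h1 : 1 / (n' : ℝ) ≤ lam) (h2 : lam ≤ q) : IsLim n' lam := by
  rcases hn' with rfl | ⟨hn, rfl⟩
  · refine down h ?_ h2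
    push_cast at h1
    exact h1
  · refine down1 hn h ?_ h2
    push_cast at h1
    exact h1

theorem fails' {n n' : ℕ} (h : ¬ Holds n) (h1 : n + 3 ≤ n') (h2 : Even n ∨ Odd n') {lam : ℝ}
    (h3 : 1 / (n' : ℝ) ≤ lam) : IsLim n' lam := by
  by_cases hp : ∃ j, n' = n + 4 + 2 * j
  · obtain ⟨j, rfl⟩ := hp
    exact fails h j h3
  · have hn : Even n := by
      rcases h2 with h4 | h4
      · exact h4
      · by_contra h5
        rw [Nat.not_even_iff_odd] at h5
        apply hp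
        obtain ⟨a, ha⟩ := h4
        obtain ⟨b, hb⟩ := h5
        exact ⟨a - b - 2, by omega⟩
    obtain ⟨j, hj⟩ : ∃ j, n' = n + 2 * j + 3 := by
      by_contra h5
      apply hp
      push Not at h5
      refine ⟨(n' - (n + 4)) / 2, ?_⟩
      have h6 := h5 ((n' - (n + 3)) / 2)
      omega
    have h4 : ¬ Holds (n + 2 * j) := fun h5 => h (holds_down' j h5)
    have h5 : Even (n + 2 * j) := hn.add (even_two_mul j)
    subst hj
    refine down1 h5 (large_of_fails h4 lam) ?_ le_rfl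
    have : (((n + 2 * j + 3 : ℕ)) : ℝ) = ((n + 2 * j : ℕ) : ℝ) + 3 := by push_cast; ring
    rwa [this] at h3

theorem iff_odd : (∀ n : ℕ, 3 ≤ n → Holds n) ↔ ∀ N : ℕ,
    ∃ n, N ≤ n ∧ Odd n ∧ ∃ lam : ℝ, 1 / (n : ℝ) ≤ lam ∧ ¬ IsLim n lam := by
  constructor
  · intro h N
    exact ⟨2 * (N + 3) + 1, by omega, ⟨N + 3, rfl⟩, bounded (h _ (by omega))⟩
  · intro h n hn
    by_contra hcon
    obtain ⟨n', h1, h2, l, h3, h4⟩ := h (n + 3)
    exact h4 (fails' hcon h1 (Or.inr h2) h3)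

end Pool.Agent.H423.SN
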