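import Mathlib

set_option autoImplicit false

/-!
# Two squarefree numbers `a`, `a + s` prime to a given number
-/

namespace Pool.Agent.H423.SN

open Finset

/-- an arithmetic progression modulo `d` has few members in `[J, 2J)` -/
theorem card_prog (J d : ℕ) (hd : 0 < d) (p : ℕ → Prop) [DecidablePred p]
    (h : ∀ j j', p j → p j' → j ≡ j' [MOD d]) :
    (((Ico J (2 * J)).filter p).card : ℝ) ≤ (J : ℝ) / d + 2 := by
  have h1 : ((Ico J (2 * J)).filter p).card ≤ (Icc (J / d) (2 * J / d)).card := by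
    refine Finset.card_le_card_of_injOn (fun j => j / d) ?_ ?_
    · intro j hj
      rw [mem_coe, mem_filter, mem_Ico] at hj
      rw [mem_coe, mem_Icc]
      exact ⟨Nat.div_le_div_right hj.1.1, Nat.div_le_div_right hj.1.2.le⟩
    · intro j hj j' hj' e
      rw [mem_coe, mem_filter] at hj hj'
      have h2 : j % d = j' % d := h j j' hj.2 hj'.2
      have e' : j / d = j' / d := e
      rw [← Nat.div_add_mod j d, ← Nat.div_add_mod j' d, h2, e']
  have h2 : (Icc (J / d) (2 * J / d)).card ≤ 2 * J / d + 1 - J / d := by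
    rw [Nat.card_Icc]
  have hd' : (0 : ℝ) < d := by exact_mod_cast hd
  have h3 : ((2 * J / d : ℕ) : ℝ) ≤ 2 * J / d := by
    have := @Nat.cast_div_le ℝ _ _ _ (2 * J) d
    push_cast at this
    exact this
  have h4 : (J : ℝ) / d < (J / d : ℕ) + 1 := by
    rw [div_lt_iff₀ hd']
    have := Nat.lt_div_mul_add (a := J) hd
    have h5 : J < (J / d + 1) * d := by rw [add_mul, one_mul]; exact this
    exact_mod_cast h5
  have h5 : J / d ≤ 2 * J / d + 1 :=
    (Nat.div_le_div_right (by omega)).trans (Nat.le_succ _)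
  have h6 : (((Ico J (2 * J)).filter p).card : ℝ) ≤ ((2 * J / d + 1 - J / d : ℕ) : ℝ) := by
    exact_mod_cast h1.trans h2
  rw [Nat.cast_sub h5] at h6
  push_cast at h6 h3
  have h7 : 2 * (J : ℝ) / d = J / d + J / d := by ring
  linarith

/-- the moduli -/
def md (p : ℕ) : ℕ := if p = 2 then 4 else p

/-- the primes up to `w` -/
def pr (w : ℕ) : Finset ℕ := (range (w + 1)).filter Nat.Prime

/-- the modulus -/
def QQ (w : ℕ) : ℕ := ∏ p ∈ pr w, md p

theorem mem_pr {w p : ℕ} : p ∈ pr w ↔ p.Prime ∧ p ≤ w := by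
  unfold pr
  rw [mem_filter, mem_range]
  constructor
  · rintro ⟨h1, h2⟩
    exact ⟨h2, by omega⟩
  · rintro ⟨h1, h2⟩
    exact ⟨by omega, h1⟩

theorem md_ne {p : ℕ} (hp : p.Prime) : md p ≠ 0 := by
  unfold md
  split_ifs
  · norm_num
  · exact hp.ne_zero

theorem md_cop {p q : ℕ} (hp : p.Prime) (hq : q.Prime) (h : p ≠ q) :
    Nat.Coprime (md p) (md q) := by
  have h0 : Nat.Coprime p q := (Nat.coprime_primes hp hq).2 h
  unfold md
  split_ifs with h1 h2 h2
  · omega
  · subst h1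
    exact Nat.Coprime.pow_left 2 h0
  · subst h2
    exact Nat.Coprime.pow_right 2 h0
  · exact h0

theorem QQ_pos (w : ℕ) : 0 < QQ w :=
  prod_pos fun _ hp => Nat.pos_of_ne_zero (md_ne (mem_pr.1 hp).1)

theorem QQ_le (w : ℕ) : QQ w ≤ 2 * 4 ^ w := by
  have h1 : ∏ p ∈ pr w, p ≤ 4 ^ w := primorial_le_four_pow w
  have h2 : QQ w ≤ 2 * ∏ p ∈ pr w, p := by
    by_cases h : 2 ∈ pr w
    · unfold QQ
      rw [← mul_prod_erase _ _ h, ← mul_prod_erase (pr w) (fun p => p) h]
      have h3 : ∏ p ∈ (pr w).erase 2, md p = ∏ p ∈ (pr w).erase 2, p := by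
        refine prod_congr rfl fun p hp => ?_
        rw [mem_erase] at hp
        unfold md
        rw [if_neg hp.1]
      rw [h3]
      unfold md
      rw [if_pos rfl]
      exact le_of_eq (by ring)
    · unfold QQ
      have h3 : ∏ p ∈ pr w, md p = ∏ p ∈ pr w, p := by
        refine prod_congr rfl fun p hp => ?_
        unfold md
        rw [if_neg (fun e => h (by rw [← e]; exact hp))]
      rw [h3]
      omega
  omega

theorem cop_QQ {w p : ℕ} (hp : p.Prime) (hw : w < p) : Nat.Coprime p (QQ w) := by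
  unfold QQ
  refine Nat.Coprime.prod_right fun q hq => ?_
  rw [mem_pr] at hq
  have h0 : Nat.Coprime p q := (Nat.coprime_primes hp hq.1).2 (by omega)
  unfold md
  split_ifs with h
  · subst h
    exact Nat.Coprime.pow_right 2 h0
  · exact h0

/-- a good residue class modulo `Q` -/
theorem good_class (s : ℤ) (w : ℕ) (hw : 2 ≤ w) : ∃ a₀ : ℕ, a₀ < QQ w ∧ ∀ a : ℕ, a ≡ a₀ [MOD QQ w] →
    (∀ p : ℕ, p.Prime → p ≤ w → ¬ p ∣ a) ∧
    (∀ p : ℕ, p.Prime → p ≤ w → p ≠ 2 → ¬ (p : ℤ) ∣ (a : ℤ) + s) ∧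
    ¬ (4 : ℤ) ∣ (a : ℤ) + s ∧ ((2 : ℤ) ∣ s → ¬ (2 : ℤ) ∣ (a : ℤ) + s) := by
  classical
  let c : ℕ → ℕ := fun p => if p = 2 then (if (2 : ℤ) ∣ s then 1 else ((2 - s) % 4).toNat) else
    if (p : ℤ) ∣ 1 + s then 2 else 1
  have hpp : Set.Pairwise (↑(pr w) : Set ℕ) (Function.onFun Nat.Coprime md) := by
    intro p hp q hq hpq
    rw [mem_coe, mem_pr] at hp hq
    exact md_cop hp.1 hq.1 hpq
  let k := Nat.chineseRemainderOfFinset c md (pr w) (fun p hp => md_ne (mem_pr.1 hp).1) hpp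
  have hk : (k : ℕ) < QQ w := Nat.chineseRemainderOfFinset_lt_prod _ _ _ hpp
  refine ⟨k, hk, fun a ha => ?_⟩
  have hmod : ∀ p : ℕ, p.Prime → p ≤ w → a ≡ c p [MOD md p] := by
    intro p hp hpw
    have h1 : md p ∣ QQ w := dvd_prod_of_mem _ (mem_pr.2 ⟨hp, hpw⟩)
    exact (ha.of_dvd h1).trans (k.2 p (mem_pr.2 ⟨hp, hpw⟩))
  have h2 : a ≡ c 2 [MOD 4] := by
    have := hmod 2 Nat.prime_two hw
    simpa [md] using this
  have hc2 : c 2 = if (2 : ℤ) ∣ s then 1 else ((2 - s) % 4).toNat := by simp [c]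
  rw [hc2] at h2
  have h2' : (a : ℤ) % 4 = (((if (2 : ℤ) ∣ s then 1 else ((2 - s) % 4).toNat : ℕ)) : ℤ) % 4 := by
    have := h2
    unfold Nat.ModEq at this
    exact_mod_cast this
  have hpar : (a : ℤ) % 2 = 1 ∧ ¬ (4 : ℤ) ∣ (a : ℤ) + s ∧ ((2 : ℤ) ∣ s → ¬ (2 : ℤ) ∣ (a : ℤ) + s) := by
    split_ifs at h2' with h
    · refine ⟨by omega, by omega, fun _ => by omega⟩
    · have h3 : (((2 - s) % 4).toNat : ℤ) = (2 - s) % 4 := Int.toNat_of_nonneg (by omega)
      rw [h3] at h2'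
      refine ⟨by omega, by omega, fun h' => absurd h' h⟩
  have hodd : ∀ p : ℕ, p.Prime → p ≤ w → p ≠ 2 →
      ¬ p ∣ a ∧ ¬ (p : ℤ) ∣ (a : ℤ) + s := by
    intro p hp hpw hp2
    have h4 := hmod p hp hpw
    have hmd : md p = p := by unfold md; rw [if_neg hp2]
    have hcp : c p = if (p : ℤ) ∣ 1 + s then 2 else 1 := by simp only [c]; rw [if_neg hp2]
    rw [hmd, hcp] at h4
    have h5 := (Nat.modEq_iff_dvd.1 h4)
    have hp3 : 3 ≤ p := by
      have := hp.two_le
      omega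
    split_ifs at h5 with h
    · constructor
      · intro h6
        have h7 : (p : ℤ) ∣ (a : ℤ) := by exact_mod_cast h6
        have h8 := dvd_add h5 h7
        have h9 : (p : ℤ) ∣ 2 := by simpa using h8
        have := Int.le_of_dvd (by norm_num) h9
        omega
      · intro h6
        have h8 := dvd_sub (dvd_add h5 h6) h
        have h9 : (p : ℤ) ∣ 1 := by
          have e : ((2 : ℕ) : ℤ) - (a : ℤ) + ((a : ℤ) + s) - (1 + s) = 1 := by push_cast; ring
          rwa [e] at h8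
        have := Int.le_of_dvd (by norm_num) h9
        omega
    · constructor
      · intro h6
        have h7 : (p : ℤ) ∣ (a : ℤ) := by exact_mod_cast h6
        have h8 := dvd_add h5 h7
        have h9 : (p : ℤ) ∣ 1 := by simpa using h8
        have := Int.le_of_dvd (by norm_num) h9
        omega
      · intro h6
        have h8 := dvd_add h5 h6
        apply h
        have e : ((1 : ℕ) : ℤ) - (a : ℤ) + ((a : ℤ) + s) = 1 + s := by push_cast; ring
        rwa [e] at h8
  refine ⟨fun p hp hpw hpa => ?_, fun p hp hpw hp2 => (hodd p hp hpw hp2).2, hpar.2.1, hpar.2.2⟩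
  by_cases hp2 : p = 2
  · subst hp2
    omega
  · exact (hodd p hp hpw hp2).1 hpa

end Pool.Agent.H423.SN
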