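import Pool.Agent.H423.SN.Core

set_option autoImplicit false

namespace Pool.Agent.H423.SN

open Finset

/-- admissible tuples: nonzero pairwise coprime integers with sum zero -/
def Adm {n : ℕ} (x : Fin n → ℤ) : Prop :=
  (∀ i, x i ≠ 0) ∧ (∀ i j, i ≠ j → Int.gcd (x i) (x j) = 1) ∧ ∑ i, x i = 0

/-- nonzero pairwise coprime integers -/
def PC {n : ℕ} (x : Fin n → ℤ) : Prop :=
  (∀ i, x i ≠ 0) ∧ ∀ i j, i ≠ j → IsCoprime (x i) (x j)

/-- the radical of a number -/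
def rn (N : ℕ) : ℕ := ∏ p ∈ N.primeFactors, p

/-- the radical of the product -/
def rd {n : ℕ} (x : Fin n → ℤ) : ℕ := ∏ p ∈ (∏ i, x i).natAbs.primeFactors, p

/-- the size -/
def sz {n : ℕ} (x : Fin n → ℤ) : ℕ := Finset.univ.sup fun i => (x i).natAbs

theorem rn_mul {a b : ℕ} (h : a.Coprime b) : rn (a * b) = rn a * rn b := by
  unfold rn
  rw [h.primeFactors_mul, prod_union h.disjoint_primeFactors]

theorem rn_sqf {a : ℕ} (h : Squarefree a) : rn a = a := Nat.prod_primeFactors_of_squarefree h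

theorem rn_pos (N : ℕ) : 0 < rn N :=
  prod_pos fun _ hp => (Nat.prime_of_mem_primeFactors hp).pos

theorem rd_pos {n : ℕ} (x : Fin n → ℤ) : 0 < rd x :=
  prod_pos fun _ hp => (Nat.prime_of_mem_primeFactors hp).pos

theorem rd_eq {n : ℕ} (x : Fin n → ℤ) : rd x = rn (∏ i, x i).natAbs := rfl

theorem le_sz {n : ℕ} (x : Fin n → ℤ) (i : Fin n) : (x i).natAbs ≤ sz x :=
  Finset.le_sup (f := fun i => (x i).natAbs) (mem_univ i)

theorem sz_le {n : ℕ} (x : Fin n → ℤ) (B : ℕ) (h : ∀ i, (x i).natAbs ≤ B) : sz x ≤ B :=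
  Finset.sup_le fun i _ => h i

/-- prepend two entries -/
def ext {m : ℕ} (F : Fin m → ℤ) (a b : ℤ) : Fin (m + 2) → ℤ :=
  Fin.cons a (Fin.cons b F : Fin (m + 1) → ℤ)

theorem ext_zero {m : ℕ} (F : Fin m → ℤ) (a b : ℤ) : ext F a b 0 = a := rfl

theorem ext_one {m : ℕ} (F : Fin m → ℤ) (a b : ℤ) : ext F a b 1 = b := rfl

theorem ext_succ {m : ℕ} (F : Fin m → ℤ) (a b : ℤ) (i : Fin m) :
    ext F a b i.succ.succ = F i := rfl

theorem forall_ext {m : ℕ} {p : Fin (m + 2) → Prop} (h0 : p 0) (h1 : p 1)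
    (h2 : ∀ i : Fin m, p i.succ.succ) : ∀ i, p i := by
  intro i
  refine Fin.cases h0 (fun j => ?_) i
  refine Fin.cases h1 (fun k => h2 k) j

theorem prod_ext {m : ℕ} (F : Fin m → ℤ) (a b : ℤ) : ∏ i, ext F a b i = a * b * ∏ i, F i := by
  rw [Fin.prod_univ_succ, Fin.prod_univ_succ, mul_assoc]
  rfl

theorem sum_ext {m : ℕ} (F : Fin m → ℤ) (a b : ℤ) : ∑ i, ext F a b i = a + b + ∑ i, F i := by
  rw [Fin.sum_univ_succ, Fin.sum_univ_succ]
  exact (add_assoc a b _).symm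

theorem PC_ext {m : ℕ} {F : Fin m → ℤ} {a b : ℤ} (hF : PC F) (ha : a ≠ 0) (hb : b ≠ 0)
    (hab : IsCoprime a b) (h1 : ∀ i, IsCoprime a (F i)) (h2 : ∀ i, IsCoprime b (F i)) :
    PC (ext F a b) := by
  refine ⟨forall_ext ha hb hF.1, ?_⟩
  refine forall_ext ?_ ?_ ?_
  · refine forall_ext (fun h => absurd rfl h) (fun _ => hab) fun i _ => ?_
    exact h1 i
  · refine forall_ext (fun _ => hab.symm) (fun h => absurd rfl h) fun i _ => ?_
    exact h2 i
  · intro i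
    refine forall_ext (fun _ => ?_) (fun _ => ?_) fun j hj => ?_
    · exact (h1 i).symm
    · exact (h2 i).symm
    · refine hF.2 i j fun h => hj ?_
      rw [h]

theorem Adm_of_PC {n : ℕ} {x : Fin n → ℤ} (h : PC x) (hs : ∑ i, x i = 0) : Adm x :=
  ⟨h.1, fun i j hij => Int.isCoprime_iff_gcd_eq_one.1 (h.2 i j hij), hs⟩

theorem Adm.pc {n : ℕ} {x : Fin n → ℤ} (h : Adm x) : PC x :=
  ⟨h.1, fun i j hij => Int.isCoprime_iff_gcd_eq_one.2 (h.2.1 i j hij)⟩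

theorem rd_ext {m : ℕ} {F : Fin m → ℤ} {a b : ℤ} (hab : IsCoprime a b)
    (h1 : IsCoprime a (∏ i, F i)) (h2 : IsCoprime b (∏ i, F i)) :
    rd (ext F a b) = rn a.natAbs * rn b.natAbs * rd F := by
  rw [rd_eq, prod_ext, Int.natAbs_mul, Int.natAbs_mul, rn_mul, rn_mul]
  · rfl
  · exact Int.isCoprime_iff_gcd_eq_one.1 hab
  · rw [← Int.natAbs_mul]
    exact Int.isCoprime_iff_gcd_eq_one.1 (h1.mul_left h2)

theorem sz_ext {m : ℕ} (F : Fin m → ℤ) (a b : ℤ) :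
    sz (ext F a b) = max a.natAbs (max b.natAbs (sz F)) := by
  apply le_antisymm
  · refine sz_le _ _ (forall_ext ?_ ?_ ?_)
    · exact le_max_left _ _
    · exact (le_max_left _ _).trans (le_max_right _ _)
    · exact fun i => (le_sz F i).trans ((le_max_right _ _).trans (le_max_right _ _))
  · refine max_le (le_sz (ext F a b) 0) (max_le (le_sz (ext F a b) 1) ?_)
    exact sz_le _ _ fun i => le_sz (ext F a b) i.succ.succ

theorem prod_ne {m : ℕ} {F : Fin m → ℤ} (h : PC F) : ∏ i, F i ≠ 0 :=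
  prod_ne_zero_iff.2 fun i _ => h.1 i

theorem prod_le {m : ℕ} (F : Fin m → ℤ) : (∏ i, F i).natAbs ≤ sz F ^ m := by
  calc (∏ i, F i).natAbs = ∏ i, (F i).natAbs := by
        rw [← Int.natAbsHom_apply, map_prod]; rfl
    _ ≤ ∏ _i : Fin m, sz F := prod_le_prod' fun i _ => le_sz F i
    _ = _ := by rw [prod_const, card_univ, Fintype.card_fin]

/-- **The step**: a tuple with given sum is completed by two squarefree numbers. -/
theorem step (K : ℕ) : ∃ A₀ : ℕ, ∀ A : ℕ, A₀ ≤ A → ∀ (m : ℕ) (F : Fin m → ℤ), PC F →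
    ∑ i, F i ≠ 0 → (∑ i, F i).natAbs ≤ K * A → (∏ i, F i).natAbs ≤ A ^ K →
    ((2 : ℤ) ∣ ∏ i, F i → (2 : ℤ) ∣ ∑ i, F i) →
    ∃ (x : Fin (m + 2) → ℤ) (a : ℕ), Adm x ∧ A < a ∧ a ≤ 3 * A ∧
      rd x = a * ((a : ℤ) + ∑ i, F i).natAbs * rd F ∧
      sz x = max a (max ((a : ℤ) + ∑ i, F i).natAbs (sz F)) := by
  obtain ⟨A₀, h⟩ := core K
  refine ⟨A₀, fun A hA m F hF hs hsK hPK hpar => ?_⟩
  have hP0 := prod_ne hF
  obtain ⟨a, h1, h2, h3, h4, h5, h6, h7⟩ := h A hA (∏ i, F i).natAbs (∑ i, F i)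
    (Int.natAbs_pos.2 hP0) hs hsK hPK (fun h8 => hpar (Int.natCast_dvd.2 h8))
  set s := ∑ i, F i with hsdef
  have ha0 : (a : ℤ) ≠ 0 := by
    have : 0 < a := by omega
    exact_mod_cast this.ne'
  have hb0 : (a : ℤ) + s ≠ 0 := by
    intro h8
    rw [h8] at h4
    exact not_squarefree_zero h4
  have ca : IsCoprime (a : ℤ) (∏ i, F i) := by
    rw [Int.isCoprime_iff_gcd_eq_one]
    exact h5
  have cb : IsCoprime ((a : ℤ) + s) (∏ i, F i) := by
    rw [Int.isCoprime_iff_gcd_eq_one]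
    exact h6
  have cs : IsCoprime (a : ℤ) s := by
    rw [Int.isCoprime_iff_gcd_eq_one]
    exact h7
  have cab : IsCoprime (a : ℤ) (-((a : ℤ) + s)) := by
    apply IsCoprime.neg_right
    have e : (a : ℤ) + s = s + a * 1 := by ring
    rw [e]
    exact cs.add_mul_left_right 1
  have ca' : ∀ i, IsCoprime (a : ℤ) (F i) := fun i =>
    ca.of_isCoprime_of_dvd_right (dvd_prod_of_mem _ (mem_univ i))
  have cb' : ∀ i, IsCoprime (-((a : ℤ) + s)) (F i) := fun i =>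
    (cb.of_isCoprime_of_dvd_right (dvd_prod_of_mem _ (mem_univ i))).neg_left
  refine ⟨ext F a (-((a : ℤ) + s)), a, ?_, h1, h2, ?_, ?_⟩
  · refine Adm_of_PC (PC_ext hF ha0 (neg_ne_zero.2 hb0) cab ca' cb') ?_
    rw [sum_ext, ← hsdef]
    ring
  · rw [rd_ext cab ca cb.neg_left, Int.natAbs_natCast, Int.natAbs_neg, rn_sqf h3, rn_sqf h4]
  · rw [sz_ext, Int.natAbs_natCast, Int.natAbs_neg]

end Pool.Agent.H423.SN
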